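import Pool.Agent.Helper14K9.PJ.Base
import Pool.Agent.Helper56K9.SO.Exi

/-! # Project PJ, leaf ENV (helper14) -/

set_option autoImplicit false

namespace Pool.Agent.Helper14K9.PJ

open Function
open Pool.Agent.Y924.EL Pool.Agent.Y924.UF
open Pool.Agent.Helper14K9.SO

theorem env : S_ENV := by
  intro p _ P φ w hinf
  obtain ⟨s, hs⟩ := exi_all p _ hinf
  obtain ⟨e, he1, he2, he3, _⟩ := full_all p _ _ _ hs
  obtain ⟨V0, hV0⟩ := Pool.Agent.Y686.UF.t_CLO.1 φ
  obtain ⟨V, hV⟩ : ∃ V, V = V0 + 1 := ⟨_, rfl⟩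
  have hφ : Below V φ := hV0 V (by omega)
  obtain ⟨X, Q, M, G, hM, _⟩ := for_ p P φ V (by omega) hφ
  set S := DefP P φ w with hS
  have rQ : Rc P (fun v => InQ p S (tq p) s (v 0)) := by
    have h1 : Rc P (fun v => Sat P Q v) := Rc.of_rl ⟨Q, fun _ => Iff.rfl⟩
    have h2 := ((h1.consts (update (update w V (tq p)) (V + 1) s) (V + 2)).sub (Tk.var 0)
      (V + 2))
    refine h2.congr fun v => ?_
    rw [(hM _).2.1]
    have e1 : (fun j => if j < V + 2 then update (update w V (tq p)) (V + 1) s j else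
        update v (V + 2) (v 0) j) V = tq p := by
      simp only
      rw [if_pos (by omega), update_of_ne (by omega), update_self]
    have e2 : (fun j => if j < V + 2 then update (update w V (tq p)) (V + 1) s j else
        update v (V + 2) (v 0) j) (V + 1) = s := by
      simp only
      rw [if_pos (by omega), update_self]
    have e3 : (fun j => if j < V + 2 then update (update w V (tq p)) (V + 1) s j else
        update v (V + 2) (v 0) j) (V + 2) = v 0 := by
      simp only
      rw [if_neg (by omega), update_self]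
    have e4 : DefP P φ (fun j => if j < V + 2 then update (update w V (tq p)) (V + 1) s j else
        update v (V + 2) (v 0) j) = S := by
      rw [hS]
      ext x
      refine sat_agree P φ hφ _ _ fun i hi => ?_
      rcases Nat.eq_zero_or_pos i with rfl | h0
      · rw [update_self, update_self]
      · rw [update_of_ne (by omega), update_of_ne (by omega), if_pos (by omega),
          update_of_ne (by omega), update_of_ne (by omega)]
    beta_reduce at e1 e2 e3
    rw [e1, e2, e3, e4]
  have rL : Rc P (fun v => Lt p (tq p) (s - v 0) (s - v 1)) := by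
    have h1 : Rl P (fun v => Lt p (v 2) (v 3 - v 0) (v 3 - v 1)) :=
      rl_Lt (Tm.var 2) ((Tm.var 3).sub (Tm.var 0)) ((Tm.var 3).sub (Tm.var 1))
    refine (((Rc.of_rl h1).sub (Tk.const (tq p)) 2).sub (Tk.const s) 3).congr fun v => ?_
    simp
  have hne : ∀ n, e n ≠ s := fun n => (he1 n).1
  have lt_iff : ∀ x y : LaurentSeries (ZMod p), x ≠ s → y ≠ s →
      (Lt p (tq p) (s - x) (s - y) ↔ (s - x).order < (s - y).order) := by
    intro x y hx hy
    refine (Pool.Agent.Helper56K9.SO.lt_iff val_all (s - x)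
      (sub_ne_zero.2 hy.symm)).trans ?_
    exact ⟨fun h => h.2, fun h => ⟨sub_ne_zero.2 hx.symm, h⟩⟩
  have hmono : StrictMono fun n => (s - e n).order := by
    intro n m hnm
    by_contra hle
    have hle' : (s - e m).order ≤ (s - e n).order := not_lt.1 hle
    have hsub : {x | InX p S (tq p) s (e m) x} ⊆ {x | InX p S (tq p) s (e n) x} := by
      rintro x ⟨hx1, hx2⟩
      refine ⟨hx1, (lt_iff x (e n) hx1.1 (hne n)).2 ?_⟩
      exact ((lt_iff x (e m) hx1.1 (hne m)).1 hx2).trans_le hle'
    have h1 := Set.ncard_le_ncard hsub (he3 n).1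
    have h2 : ({x | InX p S (tq p) s (e n) x}).ncard = n := (he3 n).2
    have h3 : ({x | InX p S (tq p) s (e m) x}).ncard = m := (he3 m).2
    omega
  refine ⟨s, e, hne, hmono, rQ.congr fun v => ⟨fun h => ?_, ?_⟩, ?_⟩
  · obtain ⟨n, hn⟩ := he2 _ h
    exact ⟨n, hn.symm⟩
  · rintro ⟨n, hn⟩
    rw [hn]
    exact he1 n
  · have h1 : Rc P (fun v => InQ p S (tq p) s (v 1)) :=
      Rc.app1 surjective_id (R := fun z => InQ p S (tq p) s z) rQ (Tk.var 1)
    refine (rQ.and (h1.and rL)).congr fun v => ?_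
    constructor
    · rintro ⟨h2, h3, h4⟩
      obtain ⟨n, hn⟩ := he2 _ h2
      obtain ⟨m, hm⟩ := he2 _ h3
      refine ⟨n, m, hn.symm, hm.symm, ?_⟩
      rw [← hn, ← hm, lt_iff _ _ (hne n) (hne m)] at h4
      exact hmono.lt_iff_lt.1 h4
    · rintro ⟨n, m, h2, h3, h4⟩
      rw [h2, h3]
      exact ⟨he1 n, he1 m, (lt_iff _ _ (hne n) (hne m)).2 (hmono h4)⟩

end Pool.Agent.Helper14K9.PJ
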