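import Pool.Agent.Helper14K9.PJ.Tpw

/-! # Project PJ: [SEQ] all sequences are definable -/

set_option autoImplicit false

namespace Pool.Agent.Helper14K9.PJ

open Function
open Pool.Agent.Y924.EL Pool.Agent.Y924.UF
open Pool.Agent.Helper14K9.SO

variable {p : ℕ} [hp : Fact p.Prime] {P : Set (LaurentSeries (ZMod p))}

namespace SeqL

open TpwL

/-- the embedding of the power series -/
noncomputable abbrev em (a : PowerSeries (ZMod p)) : LaurentSeries (ZMod p) :=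
  algebraMap (PowerSeries (ZMod p)) (LaurentSeries (ZMod p)) a

theorem em_coeff (a : PowerSeries (ZMod p)) (m : ℕ) : (em a).coeff (m : ℤ) = PowerSeries.coeff m a := by
  unfold em
  rw [LaurentSeries.coe_algebraMap]
  exact HahnSeries.ofPowerSeries_apply_coeff a m

theorem em_ext {a b : PowerSeries (ZMod p)} (h : ∀ m : ℕ, (em a).coeff (m : ℤ) = (em b).coeff m) :
    em a = em b := by
  have h1 : a = b := by
    ext m
    rw [← em_coeff, ← em_coeff]
    exact h m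
  rw [h1]

theorem inj_aux {n m i j : ℕ} (hnm : n ≤ m) (h : (i * p + 1) * p ^ n = (j * p + 1) * p ^ m) :
    n = m ∧ i = j := by
  have hp0 : 0 < p := hp.out.pos
  obtain ⟨d, rfl⟩ : ∃ d, m = n + d := ⟨m - n, by omega⟩
  rw [pow_add, mul_comm (p ^ n) (p ^ d), ← mul_assoc] at h
  have h1 : i * p + 1 = (j * p + 1) * p ^ d := Nat.eq_of_mul_eq_mul_right (pow_pos hp0 n) h
  rcases d with _ | d
  · rw [pow_zero, mul_one] at h1
    have h2 : i * p = j * p := by omega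
    exact ⟨rfl, Nat.eq_of_mul_eq_mul_right hp0 h2⟩
  · exfalso
    have h2 : p ∣ i * p + 1 := by
      rw [h1, pow_succ]
      exact (Dvd.intro_left _ rfl).mul_left _
    have h3 : p ∣ 1 := (Nat.dvd_add_right (Dvd.intro_left i rfl)).1 h2
    exact hp.out.one_lt.ne' (Nat.dvd_one.1 h3)

theorem inj {n m i j : ℕ} (h : (i * p + 1) * p ^ n = (j * p + 1) * p ^ m) : n = m ∧ i = j := by
  rcases le_total n m with h1 | h1
  · exact inj_aux h1 h
  · obtain ⟨h2, h3⟩ := inj_aux h1 h.symm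
    exact ⟨h2.symm, h3.symm⟩

open Classical in
/-- the code of a sequence -/
noncomputable def cdS (a : ℕ → PowerSeries (ZMod p)) : PowerSeries (ZMod p) :=
  PowerSeries.mk fun m => if h : ∃ q : ℕ × ℕ, (q.2 * p + 1) * p ^ q.1 = m then
    PowerSeries.coeff h.choose.2 (a h.choose.1) else 0

theorem cdS_coeff (a : ℕ → PowerSeries (ZMod p)) (n i : ℕ) :
    PowerSeries.coeff ((i * p + 1) * p ^ n) (cdS a) = PowerSeries.coeff i (a n) := by
  unfold cdS
  rw [PowerSeries.coeff_mk]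
  have h : ∃ q : ℕ × ℕ, (q.2 * p + 1) * p ^ q.1 = (i * p + 1) * p ^ n := ⟨(n, i), rfl⟩
  rw [dif_pos h]
  obtain ⟨h1, h2⟩ := inj h.choose_spec
  rw [h1, h2]

theorem seq_iff (a : ℕ → PowerSeries (ZMod p)) (n : ℕ) (y : LaurentSeries (ZMod p)) :
    em (a n) = y ↔ y ∈ OO p ∧ ∀ i : ℕ, lam (y * (tq p ^ i)⁻¹) =
      lam (em (cdS a) * (((tq p ^ i) ^ p * tq p) ^ (p ^ n))⁻¹) := by
  have h1 : ∀ i : ℕ, lam (em (cdS a) * (((tq p ^ i) ^ p * tq p) ^ (p ^ n))⁻¹) =
      PowerSeries.coeff i (a n) := by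
    intro i
    have e : ((tq p ^ i) ^ p * tq p) ^ (p ^ n) = tq p ^ ((i * p + 1) * p ^ n) := by
      rw [← pow_mul, ← pow_succ, ← pow_mul]
    rw [e, lam_inv, em_coeff, cdS_coeff]
  constructor
  · rintro rfl
    refine ⟨⟨a n, rfl⟩, fun i => ?_⟩
    rw [h1, lam_inv, em_coeff]
  · rintro ⟨⟨b, rfl⟩, h2⟩
    refine em_ext fun m => ?_
    have h3 := h2 m
    rw [h1, lam_inv] at h3
    rw [em_coeff]
    exact h3.symm

theorem seq_int {ρ : LaurentSeries (ZMod p) → ℕ} (h : Num P ρ) (hF : Frb P ρ)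
    (hT : Rc P (fun v => tq p ^ ρ (v 0) = v 1)) (a : ℕ → PowerSeries (ZMod p)) :
    Rc P (fun v => em (a (ρ (v 0))) = v 1) := by
  have hv : ∀ i, Ts P ρ (fun v => ρ (v i)) := fun i => Ts.var h.eqS i
  have ht : ∀ i, Tk P (fun v => tq p ^ ρ (v i)) := fun i =>
    Ts.op1 (F := fun n : ℕ => tq p ^ n) h.surj surjective_id hT eqS_id (hv i)
  have h1 : Rc P (fun v => v 1 ∈ OO p ∧ ∀ i : ℕ, lam (v 1 * (tq p ^ i)⁻¹) =
      lam (em (cdS a) * (((tq p ^ i) ^ p * tq p) ^ (p ^ ρ (v 0)))⁻¹)) := by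
    refine (rc_OO (Tk.var 1)).and ?_
    refine Rc.allS 2 h.surj (R := fun v i => lam (v 1 * (tq p ^ i)⁻¹) =
      lam (em (cdS a) * (((tq p ^ i) ^ p * tq p) ^ (p ^ ρ (v 0)))⁻¹)) ?_ fun v b c => by simp
    exact rc_lam ((Tk.var 1).mul (ht 2).inv)
      ((Tk.const (em (cdS a))).mul (powF h hF (((ht 2).pow p).mul (Tk.const (tq p))) (hv 0)).inv)
  exact h1.congr fun v => (seq_iff a (ρ (v 0)) (v 1)).symm

end SeqL

open SeqL in
theorem seq : S_SEQ := by
  intro p _ P ρ h hF hT x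
  have hx : ∀ n, ∃ a b : PowerSeries (ZMod p), em a / em b = x n := by
    intro n
    obtain ⟨a, b, -, hab⟩ := IsFractionRing.div_surjective (A := PowerSeries (ZMod p)) (x n)
    exact ⟨a, b, hab⟩
  choose a b hab using hx
  have hA : Tk P (fun v => em (a (ρ (v 0)))) :=
    Ts.op1 (F := fun n : ℕ => em (a n)) h.surj surjective_id (seq_int h hF hT a) eqS_id
      (Ts.var h.eqS 0)
  have hB : Tk P (fun v => em (b (ρ (v 0)))) :=
    Ts.op1 (F := fun n : ℕ => em (b n)) h.surj surjective_id (seq_int h hF hT b) eqS_id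
      (Ts.var h.eqS 0)
  refine (Rc.eqK (hA.div hB) (Tk.var 1)).congr fun v => ?_
  rw [hab]

end Pool.Agent.Helper14K9.PJ
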