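import Pool.Agent.Helper14K9.PJ.Base
import Pool.Agent.Y15.UF.Res

/-! # Project PJ: [TPW] the powers of `t` -/

set_option autoImplicit false

namespace Pool.Agent.Helper14K9.PJ

open Function
open Pool.Agent.Y924.EL Pool.Agent.Y924.UF
open Pool.Agent.Helper14K9.SO

variable {p : ℕ} [hp : Fact p.Prime] {P : Set (LaurentSeries (ZMod p))}

namespace TpwL

/-! ## Numbers -/

/-- constant numbers -/
theorem cst {ρ : LaurentSeries (ZMod p) → ℕ} (h : Num P ρ) (m : ℕ) :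
    Ts P ρ (fun _ => m) := by
  obtain ⟨a, ha⟩ := h.surj m
  have h1 : Ts P ρ (fun _ : ℕ → LaurentSeries (ZMod p) => ρ (id a)) :=
    Ts.op1 (ρ := id) (F := ρ) surjective_id h.surj (h.eqS 0 1) h.eqS (Tk.const a)
  simpa only [id, ha] using h1

theorem addT {ρ : LaurentSeries (ZMod p) → ℕ} (h : Num P ρ)
    {f g : (ℕ → LaurentSeries (ZMod p)) → ℕ} (hf : Ts P ρ f) (hg : Ts P ρ g) :
    Ts P ρ (fun v => f v + g v) :=
  Ts.op2 h.surj h.surj h.surj (F := fun x y => x + y) h.add h.eqS hf hg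

theorem eqN {ρ : LaurentSeries (ZMod p) → ℕ} (h : Num P ρ)
    {f g : (ℕ → LaurentSeries (ZMod p)) → ℕ} (hf : Ts P ρ f) (hg : Ts P ρ g) :
    Rc P (fun v => f v = g v) := Rc.eqT h.surj h.eqS hf hg

theorem ltN {ρ : LaurentSeries (ZMod p) → ℕ} (h : Num P ρ)
    {f g : (ℕ → LaurentSeries (ZMod p)) → ℕ} (hf : Ts P ρ f) (hg : Ts P ρ g) :
    Rc P (fun v => f v < g v) := by
  obtain ⟨N, hN⟩ := hf.indep
  obtain ⟨M, hM⟩ := hg.indep
  refine (Rc.exS (N + M) h.surj (R := fun v c => f v + (c + 1) = g v)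
    (eqN h (addT h hf (addT h (Ts.var h.eqS (N + M)) (cst h 1))) hg) fun v a c => ?_).congr
    fun v => ?_
  · rw [hN _ (by omega), hM _ (by omega)]
  · constructor
    · rintro ⟨c, hc⟩
      omega
    · intro h1
      exact ⟨g v - f v - 1, by omega⟩

/-- powers of the Frobenius of definable elements -/
theorem powF {ρ : LaurentSeries (ZMod p) → ℕ} (h : Num P ρ) (hF : Frb P ρ)
    {f : (ℕ → LaurentSeries (ZMod p)) → LaurentSeries (ZMod p)}
    {g : (ℕ → LaurentSeries (ZMod p)) → ℕ} (hf : Tk P f) (hg : Ts P ρ g) :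
    Tk P (fun v => f v ^ (p ^ g v)) :=
  Ts.op2 surjective_id h.surj surjective_id (F := fun x n => x ^ (p ^ n)) hF eqS_id hf hg

/-! ## Coefficients -/

theorem coeff_ppow (w : LaurentSeries (ZMod p)) : ∀ (n : ℕ) (j : ℤ),
    (w ^ (p ^ n)).coeff j = if ((p ^ n : ℕ) : ℤ) ∣ j then w.coeff (j / ((p ^ n : ℕ) : ℤ)) else 0
  | 0, j => by simp
  | n + 1, j => by
    have hp0 : (0 : ℤ) < p := by exact_mod_cast hp.out.pos
    rw [pow_succ, pow_mul, Pool.Agent.Y15.UF.coeff_pow, coeff_ppow w n]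
    push_cast
    by_cases h1 : (p : ℤ) ∣ j
    · rw [if_pos h1]
      obtain ⟨i, rfl⟩ := h1
      rw [Int.mul_ediv_cancel_left _ hp0.ne']
      by_cases h2 : (p : ℤ) ^ n ∣ i
      · rw [if_pos h2, if_pos (by rw [mul_comm]; exact mul_dvd_mul_left _ h2)]
        rw [mul_comm ((p : ℤ) ^ n) p, Int.mul_ediv_mul_of_pos _ _ hp0]
      · rw [if_neg h2, if_neg]
        intro h3
        rw [mul_comm] at h3
        exact h2 (Int.dvd_of_mul_dvd_mul_left hp0.ne' h3)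
    · rw [if_neg h1, if_neg]
      intro h3
      exact h1 ((Dvd.intro_left _ rfl).trans h3)

theorem tq_ne : (tq p) ≠ 0 := by
  unfold tq
  intro h
  have := HahnSeries.single_eq_zero_iff.1 h
  exact one_ne_zero this

theorem tq_pow (m : ℕ) : (tq p) ^ m = HahnSeries.single (m : ℤ) (1 : ZMod p) := by
  unfold tq
  rw [HahnSeries.single_pow]
  simp

theorem tq_pow_inv (m : ℕ) : ((tq p) ^ m)⁻¹ = HahnSeries.single (-(m : ℤ)) (1 : ZMod p) := by
  rw [tq_pow]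
  apply inv_eq_of_mul_eq_one_right
  rw [HahnSeries.single_mul_single]
  simp

theorem lam_inv (z : LaurentSeries (ZMod p)) (m : ℕ) : lam (z * ((tq p) ^ m)⁻¹) = z.coeff m := by
  unfold lam
  rw [tq_pow_inv]
  have h := HahnSeries.coeff_mul_single_add (r := (1 : ZMod p)) (x := z) (a := (m : ℤ))
    (b := -(m : ℤ))
  rw [add_neg_cancel, mul_one] at h
  exact h

theorem lam_ext {x y : LaurentSeries (ZMod p)} (h : ∀ c, lam (c * x) = lam (c * y)) : x = y := by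
  ext j
  have h1 := h (HahnSeries.single (-j) 1)
  have h2 : ∀ z : LaurentSeries (ZMod p), lam (HahnSeries.single (-j) 1 * z) = z.coeff j := by
    intro z
    unfold lam
    have h := HahnSeries.coeff_single_mul_add (r := (1 : ZMod p)) (x := z) (a := j) (b := -j)
    rw [add_neg_cancel, one_mul] at h
    exact h
  rwa [h2, h2] at h1

theorem lam_sum {ι : Type} (s : Finset ι) (f : ι → LaurentSeries (ZMod p)) :
    lam (∑ i ∈ s, f i) = ∑ i ∈ s, lam (f i) := by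
  unfold lam
  rw [HahnSeries.coeff_sum]

/-- the relation which decodes the sum of the `t ^ (p ^ i) * (y i) ^ (p ^ n)` -/
def DD (Y : LaurentSeries (ZMod p)) (n k : ℕ) (y : LaurentSeries (ZMod p)) : Prop :=
  ∀ c : LaurentSeries (ZMod p), lam (c ^ (p ^ n) * (tq p ^ (p ^ k))⁻¹ * Y) = lam (c * y)

theorem DD_unique {Y y y' : LaurentSeries (ZMod p)} {n k : ℕ} (h : DD Y n k y) (h' : DD Y n k y') :
    y = y' := lam_ext fun c => (h c).symm.trans (h' c)

theorem DD_sum (n : ℕ) (y : ℕ → LaurentSeries (ZMod p)) (k : ℕ) (hk : k < n) :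
    DD (∑ i ∈ Finset.range n, tq p ^ (p ^ i) * y i ^ (p ^ n)) n k (y k) := by
  intro c
  rw [Finset.mul_sum, lam_sum, Finset.sum_eq_single k]
  · have e : c ^ (p ^ n) * (tq p ^ (p ^ k))⁻¹ * (tq p ^ (p ^ k) * y k ^ (p ^ n)) =
        (c * y k) ^ (p ^ n) := by
      rw [mul_pow]
      field_simp [tq_ne]
    rw [e]
    unfold lam
    rw [coeff_ppow, if_pos (dvd_zero _), Int.zero_ediv]
  · intro i hi hik
    rw [Finset.mem_range] at hi
    have e : c ^ (p ^ n) * (tq p ^ (p ^ k))⁻¹ * (tq p ^ (p ^ i) * y i ^ (p ^ n)) =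
        (c * y i) ^ (p ^ n) * HahnSeries.single ((p ^ i : ℕ) - (p ^ k : ℕ) : ℤ) (1 : ZMod p) := by
      have e2 : HahnSeries.single ((p ^ i : ℕ) - (p ^ k : ℕ) : ℤ) (1 : ZMod p) =
          tq p ^ (p ^ i) * (tq p ^ (p ^ k))⁻¹ := by
        rw [tq_pow, tq_pow_inv, HahnSeries.single_mul_single, mul_one, sub_eq_add_neg]
      rw [e2, mul_pow]
      ring
    rw [e]
    unfold lam
    have h := HahnSeries.coeff_mul_single_add (r := (1 : ZMod p)) (x := (c * y i) ^ (p ^ n))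
      (a := -((p ^ i : ℕ) - (p ^ k : ℕ) : ℤ)) (b := ((p ^ i : ℕ) - (p ^ k : ℕ) : ℤ))
    rw [neg_add_cancel, mul_one] at h
    rw [h, coeff_ppow, if_neg]
    intro h1
    have h2 : ((p ^ n : ℕ) : ℤ) ∣ ((p ^ i : ℕ) - (p ^ k : ℕ) : ℤ) := (dvd_neg.1 h1)
    have hi' : p ^ i < p ^ n := Nat.pow_lt_pow_right hp.out.one_lt hi
    have hk' : p ^ k < p ^ n := Nat.pow_lt_pow_right hp.out.one_lt hk
    have h3 : ((p ^ i : ℕ) - (p ^ k : ℕ) : ℤ) = 0 := by
      apply Int.eq_zero_of_abs_lt_dvd h2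
      rw [abs_lt]
      constructor <;> omega
    have h4 : p ^ i = p ^ k := by omega
    exact hik (Nat.pow_right_injective hp.out.two_le h4)
  · intro h
    exact absurd (Finset.mem_range.2 hk) h

theorem rc_DD {ρ : LaurentSeries (ZMod p) → ℕ} (h : Num P ρ) (hF : Frb P ρ)
    {Y y : (ℕ → LaurentSeries (ZMod p)) → LaurentSeries (ZMod p)}
    {n k : (ℕ → LaurentSeries (ZMod p)) → ℕ} (hY : Tk P Y) (hn : Ts P ρ n) (hk : Ts P ρ k)
    (hy : Tk P y) : Rc P (fun v => DD (Y v) (n v) (k v) (y v)) := by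
  obtain ⟨N1, h1⟩ := hY.indep
  obtain ⟨N2, h2⟩ := hn.indep
  obtain ⟨N3, h3⟩ := hk.indep
  obtain ⟨N4, h4⟩ := hy.indep
  obtain ⟨q, hq⟩ : ∃ q, q = N1 + N2 + N3 + N4 := ⟨_, rfl⟩
  refine Rc.all' q (R := fun v c => lam (c ^ (p ^ n v) * (tq p ^ (p ^ k v))⁻¹ * Y v) = lam (c * y v))
    (rc_lam ((((powF h hF (Tk.var q) hn).mul (powF h hF (Tk.const (tq p)) hk).inv)).mul hY)
      ((Tk.var q).mul hy)) fun v a c => ?_
  rw [h1 q (by omega), h2 q (by omega), h3 q (by omega), h4 q (by omega)]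

theorem tpw_iff (m : ℕ) (y : LaurentSeries (ZMod p)) : tq p ^ m = y ↔
    ∃ (n : ℕ) (Y : LaurentSeries (ZMod p)), DD Y n 0 1 ∧ DD Y n m y ∧
      ∀ k : ℕ, k < m → ∃ w, DD Y n k w ∧ DD Y n (k + 1) (tq p * w) := by
  constructor
  · rintro rfl
    refine ⟨m + 1, ∑ i ∈ Finset.range (m + 1), tq p ^ (p ^ i) * (tq p ^ i) ^ (p ^ (m + 1)), ?_, ?_, ?_⟩
    · have h := DD_sum (m + 1) (fun i => tq p ^ i) 0 (by omega)
      simpa using h
    · exact DD_sum (m + 1) (fun i => tq p ^ i) m (by omega)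
    · intro k hk
      refine ⟨tq p ^ k, DD_sum (m + 1) (fun i => tq p ^ i) k (by omega), ?_⟩
      have h := DD_sum (m + 1) (fun i => tq p ^ i) (k + 1) (by omega)
      rwa [show tq p * tq p ^ k = tq p ^ (k + 1) by rw [pow_succ, mul_comm]]
  · rintro ⟨n, Y, h0, hm, hs⟩
    have h1 : ∀ k, k ≤ m → DD Y n k (tq p ^ k) := by
      intro k
      induction k with
      | zero => intro _; simpa using h0
      | succ k ih =>
        intro hk
        obtain ⟨w, hw1, hw2⟩ := hs k (by omega)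
        have := DD_unique (ih (by omega)) hw1
        rw [← this] at hw2
        rwa [pow_succ, mul_comm]
    exact DD_unique (h1 m le_rfl) hm

end TpwL

open TpwL in
theorem tpw : S_TPW := by
  intro p _ P ρ h hF
  have hv : ∀ i, Ts P ρ (fun v => ρ (v i)) := fun i => Ts.var h.eqS i
  have h1 : Rc P (fun v => ∃ n : ℕ, ∃ Y : LaurentSeries (ZMod p), DD Y n 0 1 ∧
      DD Y n (ρ (v 0)) (v 1) ∧ ∀ k : ℕ, k < ρ (v 0) → ∃ w, DD Y n k w ∧ DD Y n (k + 1) (tq p * w)) := by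
    refine Rc.exS 2 h.surj (R := fun v n => ∃ Y : LaurentSeries (ZMod p), DD Y n 0 1 ∧
      DD Y n (ρ (v 0)) (v 1) ∧ ∀ k : ℕ, k < ρ (v 0) → ∃ w, DD Y n k w ∧ DD Y n (k + 1) (tq p * w))
      ?_ fun v a c => by simp
    refine Rc.ex' 3 (R := fun v Y => DD Y (ρ (v 2)) 0 1 ∧
      DD Y (ρ (v 2)) (ρ (v 0)) (v 1) ∧ ∀ k : ℕ, k < ρ (v 0) →
        ∃ w, DD Y (ρ (v 2)) k w ∧ DD Y (ρ (v 2)) (k + 1) (tq p * w)) ?_ fun v a c => by simp
    refine (rc_DD h hF (Tk.var 3) (hv 2) (cst h 0) (Tk.const 1)).and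
      ((rc_DD h hF (Tk.var 3) (hv 2) (hv 0) (Tk.var 1)).and ?_)
    refine Rc.allS 4 h.surj (R := fun v k => k < ρ (v 0) →
        ∃ w, DD (v 3) (ρ (v 2)) k w ∧ DD (v 3) (ρ (v 2)) (k + 1) (tq p * w)) ?_ fun v a c => by simp
    refine (ltN h (hv 4) (hv 0)).imp ?_
    refine Rc.ex' 5 (R := fun v w => DD (v 3) (ρ (v 2)) (ρ (v 4)) w ∧
      DD (v 3) (ρ (v 2)) (ρ (v 4) + 1) (tq p * w)) ?_ fun v a c => by simp
    exact (rc_DD h hF (Tk.var 3) (hv 2) (hv 4) (Tk.var 5)).and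
      (rc_DD h hF (Tk.var 3) (hv 2) (addT h (hv 4) (cst h 1)) ((Tk.const (tq p)).mul (Tk.var 5)))
  exact h1.congr fun v => (tpw_iff (ρ (v 0)) (v 1)).symm

end Pool.Agent.Helper14K9.PJ
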