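import Pool.Agent.Helper14K9.PJ.Asm
import Pool.Agent.Helper14K9.PJ.Env
import Pool.Agent.Helper14K9.PJ.Seq
import Pool.Agent.Helper14K9.PJ.Tpw
import Pool.Agent.Helper12K9.PJ.Cnt
import Pool.Agent.Helper18K9.PJ.Sum
import Pool.Agent.Helper18K9.PJ.Pow
import Pool.Agent.Helper45K9.PJ.Lim
import Pool.Agent.Helper56K9.PJ.Dis
import Pool.Agent.Helper56K9.PJ.Grp
import Pool.Agent.Helper90K9.PJ.Num

/-! # Project PJ: all parts together (helper14) -/

set_option autoImplicit false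

namespace Pool.Agent.Helper14K9.PJ

open Pool.Agent.Y924.EL Pool.Agent.Y924.UF
open Pool.Agent.Helper14K9.SO
open Pool.Agent.Results.MP_db9079_lc.LocallyFiniteValues

theorem num_all : S_NUM := Pool.Agent.Helper90K9.PJ.num Pool.Agent.Helper12K9.PJ.cnt

theorem pow_all : S_POW :=
  Pool.Agent.Helper18K9.PJ.pow Pool.Agent.Helper18K9.PJ.sum Pool.Agent.Helper45K9.PJ.lim

theorem wild_all (p : ℕ) [Fact p.Prime] (P : Set (LaurentSeries (ZMod p))) (hP : Unb P) :
    (∃ (ψ : Fm) (w : ℕ → LaurentSeries (ZMod p)), (LFS p (DefP P ψ w)).Infinite) ∧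
    ∀ (n : ℕ) (X : Set (Fin n → LaurentSeries (ZMod p))), Proj p n X →
      ∃ φ w, DSet p P φ n w = X :=
  wild num_all pow_all (Pool.Agent.Helper56K9.PJ.dis num_all pow_all) env
    Pool.Agent.Helper56K9.PJ.grp tpw seq p P hP

end Pool.Agent.Helper14K9.PJ
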