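import Pool.Agent.Helper14K9.PJ.Base
import Pool.Agent.Helper56K9.SO.Hs

/-! # Project PJ, leaf CLS: closed sets (helper14) -/

set_option autoImplicit false

namespace Pool.Agent.Helper14K9.PJ

open Function
open Pool.Agent.Y924.EL Pool.Agent.Y924.UF
open Pool.Agent.Helper14K9.SO

variable {p : ℕ} [Fact p.Prime]

theorem ball_iff {r : LaurentSeries (ZMod p)} (hr : r ≠ 0) (x : LaurentSeries (ZMod p)) :
    (∃ z, z ∈ OO p ∧ x = r * z) ↔ Vle (HahnSeries.order r) x := by
  have h := Pool.Agent.Helper56K9.SO.exists_OO hr x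
  constructor
  · rintro ⟨z, hz, h1⟩
    exact h.1 ⟨z, hz, h1.symm⟩
  · intro h1
    obtain ⟨z, hz, h2⟩ := h.2 h1
    exact ⟨z, hz, h2.symm⟩

/-- the coefficients below `N` -/
noncomputable def trn (N : ℤ) (z : LaurentSeries (ZMod p)) : ℤ →₀ ZMod p :=
  Finsupp.ofSupportFinite (fun n => if n < N then z.coeff n else 0) (by
    refine (Set.finite_Icc (HahnSeries.order z) N).subset fun n hn => ?_
    rw [Function.mem_support] at hn
    by_cases h : n < N
    · rw [if_pos h] at hn
      refine ⟨?_, h.le⟩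
      by_contra h2
      exact hn (HahnSeries.coeff_eq_zero_of_lt_order (not_le.1 h2))
    · rw [if_neg h] at hn
      exact absurd rfl hn)

theorem trn_eq {N : ℤ} {y z : LaurentSeries (ZMod p)} (h : trn N y = trn N z) :
    Vle N (y - z) := by
  intro n hn
  have h1 := DFunLike.congr_fun h n
  simp only [trn, Finsupp.ofSupportFinite_coe, if_pos hn] at h1
  rw [HahnSeries.coeff_sub, h1, sub_self]

theorem dense_seq {n : ℕ} (C : Set (Fin n → LaurentSeries (ZMod p))) (hC : C.Nonempty) :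
    ∃ x : ℕ → Fin n → LaurentSeries (ZMod p), (∀ k, x k ∈ C) ∧
      ∀ y ∈ C, ∀ N : ℤ, ∃ k, ∀ i, Vle N (y i - x k i) := by
  classical
  obtain ⟨c0, hc0⟩ := hC
  set pt : ℤ × (Fin n → (ℤ →₀ ZMod p)) → (Fin n → LaurentSeries (ZMod p)) := fun a =>
    if h : ∃ c ∈ C, (fun i => trn a.1 (c i)) = a.2 then h.choose else c0 with hpt
  have hptC : ∀ a, pt a ∈ C := by
    intro a
    rw [hpt]
    simp only
    by_cases h : ∃ c ∈ C, (fun i => trn a.1 (c i)) = a.2
    · rw [dif_pos h]
      exact h.choose_spec.1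
    · rw [dif_neg h]
      exact hc0
  haveI : Nonempty (ℤ × (Fin n → (ℤ →₀ ZMod p))) := ⟨(0, fun _ => 0)⟩
  haveI : Countable (ZMod p) := Finite.to_countable
  obtain ⟨g, hg⟩ := exists_surjective_nat (ℤ × (Fin n → (ℤ →₀ ZMod p)))
  refine ⟨fun k => pt (g k), fun k => hptC _, fun y hy N => ?_⟩
  obtain ⟨k, hk⟩ := hg (N, fun i => trn N (y i))
  refine ⟨k, fun i => ?_⟩
  have h : ∃ c ∈ C, (fun i => trn N (c i)) = fun i => trn N (y i) := ⟨y, hy, rfl⟩
  have h1 : pt (g k) = h.choose := by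
    rw [hk, hpt]
    simp only
    rw [dif_pos h]
  have h2 := congrFun h.choose_spec.2 i
  show Vle N (y i - pt (g k) i)
  rw [h1]
  exact trn_eq h2.symm

theorem cls : S_CLS := by
  intro p _ P ρ hρ hx n C hC
  by_cases hne : C.Nonempty
  · obtain ⟨x, hxC, hxd⟩ := dense_seq C hne
    have h1 : ∀ (i : Fin n) (j : ℕ), Tk P (fun v => x (ρ (v j)) i) := by
      intro i j
      exact Ts.op1 (ρ := ρ) (σ := id) (F := fun k => x k i) hρ.surj surjective_id
        (hx fun k => x k i) eqS_id (Ts.var hρ.eqS j)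
    have h2 : Rc P (fun v => ∀ r, r ≠ 0 → ∃ k, ∀ i : Fin n, ∃ z, z ∈ OO p ∧
        v i - x k i = r * z) := by
      refine Rc.all' (n + 1) (R := fun v r => r ≠ 0 → ∃ k, ∀ i : Fin n, ∃ z, z ∈ OO p ∧
        v i - x k i = r * z) ?_ ?_
      · refine (Rc.eqC (n + 1) (0 : LaurentSeries (ZMod p))).not.imp ?_
        refine Rc.exS (n + 2) hρ.surj (R := fun v k => ∀ i : Fin n, ∃ z, z ∈ OO p ∧
          v i - x k i = v (n + 1) * z) ?_ ?_
        · exact Rc.allFin fun i => rc_ball (Tk.var (i : ℕ)) (h1 i (n + 2)) (Tk.var (n + 1))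
        · intro v a c
          rw [update_of_ne (show n + 1 ≠ n + 2 by omega)]
          refine forall_congr' fun i => ?_
          rw [update_of_ne (show (i : ℕ) ≠ n + 2 by omega)]
      · intro v a c
        refine imp_congr Iff.rfl (exists_congr fun k => forall_congr' fun i => ?_)
        rw [update_of_ne (show (i : ℕ) ≠ n + 1 by omega)]
    refine h2.congr fun v => ?_
    constructor
    · intro h
      by_contra hv
      obtain ⟨N, hN⟩ := hC _ hv
      obtain ⟨k, hk⟩ := h (HahnSeries.single N (1 : ZMod p))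
        (Pool.Agent.R794.FP.single_ne N)
      refine hN (x k) (hxC k) fun i => ?_
      have h3 := (ball_iff (Pool.Agent.R794.FP.single_ne N) _).1 (hk i)
      rw [HahnSeries.order_single one_ne_zero] at h3
      intro m hm
      have h4 := h3 m hm
      rw [HahnSeries.coeff_sub] at h4 ⊢
      rw [← neg_eq_zero, neg_sub]
      exact h4
    · intro h r hr
      obtain ⟨k, hk⟩ := hxd _ h (HahnSeries.order r)
      exact ⟨k, fun i => (ball_iff hr _).2 (hk i)⟩
  · refine (Rc.const False).congr fun v => ⟨fun h => h.elim, fun h => hne ⟨_, h⟩⟩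

end Pool.Agent.Helper14K9.PJ
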