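import Pool.Agent.Helper14K9.PJ.Lf
import Pool.Agent.Helper14K9.PJ.Cls
import Pool.Agent.Helper14K9.SO.All

/-! # Project PJ: assembly (helper14) -/

set_option autoImplicit false

namespace Pool.Agent.Helper14K9.PJ

open Function
open Pool.Agent.Y924.EL Pool.Agent.Y924.UF
open Pool.Agent.Helper14K9.SO
open Pool.Agent.Results.MP_db9079_lc.UniformFiniteness
open Pool.Agent.Results.MP_db9079_lc.LocallyFiniteValues

/-- from the groups to the powers of the Frobenius -/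
theorem frb_of (hPOW : S_POW) (hGRP : S_GRP) (p : ℕ) [Fact p.Prime]
    (P : Set (LaurentSeries (ZMod p))) (ρ : LaurentSeries (ZMod p) → ℕ) (hρ : Num P ρ)
    (s : LaurentSeries (ZMod p)) (e : ℕ → LaurentSeries (ZMod p)) (hE : Env P s e) :
    Frb P ρ := by
  obtain ⟨G, hG, hmem⟩ := hGRP p P ρ hρ s e hE
  have hX : Fam P (fun v => (G (ρ (v 1)) : Set (LaurentSeries (ZMod p)))) :=
    ⟨hmem, fun v a => by rw [update_of_ne (show (1 : ℕ) ≠ 0 by norm_num)], fun v => (hG _).1⟩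
  have h1 := hPOW p P ρ hρ _ hX (fun v => ⟨G (ρ (v 1)), rfl⟩) (fun v => v 0) (Tk.var 0)
  refine (Rc.eqK h1 (Tk.var 2)).congr fun v => ?_
  rw [(hG _).2]

/-- the wild case -/
theorem wild (hNUM : S_NUM) (hPOW : S_POW) (hDIS : S_DIS) (hENV : S_ENV) (hGRP : S_GRP)
    (hTPW : S_TPW) (hSEQ : S_SEQ) (p : ℕ) [Fact p.Prime]
    (P : Set (LaurentSeries (ZMod p))) (hP : Unb P) :
    (∃ (ψ : Fm) (w : ℕ → LaurentSeries (ZMod p)), (LFS p (DefP P ψ w)).Infinite) ∧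
    ∀ (n : ℕ) (X : Set (Fin n → LaurentSeries (ZMod p))), Proj p n X →
      ∃ φ w, DSet p P φ n w = X := by
  obtain ⟨E, hE1, hE2, hE3⟩ := hDIS p P hP
  obtain ⟨φ, v, hv⟩ := lfv_of_powers P E hE1 (fun x hx => by
    obtain ⟨n, hn⟩ := hE2 x hx
    exact ⟨_, hn⟩) hE3
  obtain ⟨ψ, w, hw⟩ := lfs_of_lfv P φ 1 1 v hv
  refine ⟨⟨ψ, w, hw⟩, fun n X hX => ?_⟩
  obtain ⟨s, e, hEnv⟩ := hENV p P ψ w hw
  obtain ⟨ρ, hρ⟩ := hNUM p P hP
  have hF := frb_of hPOW hGRP p P ρ hρ s e hEnv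
  have hT := hTPW p P ρ hρ hF
  have hS := hSEQ p P ρ hρ hF hT
  exact dset_of_rc (rc_proj (fun n C hC => cls p P ρ hρ hS n C hC) n X hX)

end Pool.Agent.Helper14K9.PJ
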