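import Pool.Agent.Helper14K9.PJ.Stm
import Pool.Agent.Helper14K9.SO.For
import Pool.Agent.Helper14K9.SO.All

/-! # Project PJ: basic definable relations of `F_p((t))` (helper14) -/

set_option autoImplicit false

namespace Pool.Agent.Helper14K9.PJ

open Function
open Pool.Agent.Y924.EL Pool.Agent.Y924.UF
open Pool.Agent.Helper14K9.SO

variable {p : ℕ} [Fact p.Prime] {P : Set (LaurentSeries (ZMod p))}

theorem rc_OO0 : Rc P (fun v => v 0 ∈ OO p) := by
  have h1 : Rl P (fun v => OT (p + 1) (v 1) (v 0)) := rl_OT (p + 1) (Tm.var 1) (Tm.var 0)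
  refine ((Rc.of_rl h1).sub (Tk.const (tq p)) 1).congr fun v => ?_
  rw [update_self, update_of_ne (show (0 : ℕ) ≠ 1 by norm_num), (val_all p).1]
  rfl

/-- the valuation ring -/
theorem rc_OO {f : (ℕ → LaurentSeries (ZMod p)) → LaurentSeries (ZMod p)} (hf : Tk P f) :
    Rc P (fun v => f v ∈ OO p) :=
  Rc.app1 surjective_id (R := fun z => z ∈ OO p) rc_OO0 hf

theorem rc_lam0 : Rc P (fun v => lam (v 0) = 0) := by
  have h1 : Rl P (fun v => HH (v 1) p (v 0)) := rl_HH p (Tm.var 1) (Tm.var 0)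
  refine ((Rc.of_rl h1).sub (Tk.const (tq p)) 1).congr fun v => ?_
  rw [update_self, update_of_ne (show (0 : ℕ) ≠ 1 by norm_num)]
  exact Pool.Agent.Y15.UF.t_RES p (v 0)

theorem lam_surj : Surjective (lam : LaurentSeries (ZMod p) → ZMod p) := fun a =>
  ⟨HahnSeries.single (0 : ℤ) a, by simp [lam]⟩

theorem lam_sub (x y : LaurentSeries (ZMod p)) : lam (x - y) = lam x - lam y := by
  simp [lam]

theorem lam_add (x y : LaurentSeries (ZMod p)) : lam (x + y) = lam x + lam y := by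
  simp [lam]

/-- `lam` is a sort -/
theorem eqS_lam : EqS P (lam : LaurentSeries (ZMod p) → ZMod p) := fun i j =>
  (Rc.app1 surjective_id (R := fun z => lam z = 0) rc_lam0 ((Tk.var i).sub (Tk.var j))).congr
    fun v => by rw [lam_sub, sub_eq_zero]

/-- the coefficient of `t ^ 0` as a definable function -/
theorem ts_lam {f : (ℕ → LaurentSeries (ZMod p)) → LaurentSeries (ZMod p)} (hf : Tk P f) :
    Ts P lam (fun v => lam (f v)) :=
  Ts.op1 (F := lam) surjective_id lam_surj (eqS_lam 0 1) eqS_lam hf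

theorem rc_lam {f g : (ℕ → LaurentSeries (ZMod p)) → LaurentSeries (ZMod p)} (hf : Tk P f)
    (hg : Tk P g) : Rc P (fun v => lam (f v) = lam (g v)) :=
  Rc.eqT lam_surj eqS_lam (ts_lam hf) (ts_lam hg)

theorem Tk.inv {f : (ℕ → LaurentSeries (ZMod p)) → LaurentSeries (ZMod p)} (hf : Tk P f) :
    Tk P (fun v => (f v)⁻¹) := by
  refine Ts.op1 (F := fun x => x⁻¹) surjective_id surjective_id ?_ eqS_id hf
  refine (((Rc.eqC 0 (0 : LaurentSeries (ZMod p))).and (Rc.eqC 1 0)).or
    (Rc.eqK ((Tk.var 0).mul (Tk.var 1)) (Tk.const 1))).congr fun v => ?_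
  show (v 0 = 0 ∧ v 1 = 0) ∨ v 0 * v 1 = 1 ↔ (v 0)⁻¹ = v 1
  constructor
  · rintro (⟨h1, h2⟩ | h)
    · rw [h1, h2, inv_zero]
    · exact inv_eq_of_mul_eq_one_right h
  · intro h
    by_cases h0 : v 0 = 0
    · left
      rw [← h, h0, inv_zero]
      exact ⟨rfl, rfl⟩
    · right
      rw [← h, mul_inv_cancel₀ h0]

theorem Tk.div {f g : (ℕ → LaurentSeries (ZMod p)) → LaurentSeries (ZMod p)} (hf : Tk P f)
    (hg : Tk P g) : Tk P (fun v => f v / g v) := by
  simpa only [div_eq_mul_inv] using hf.mul hg.inv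

/-- the balls: `f - g` is in `h O` -/
theorem rc_ball {f g h : (ℕ → LaurentSeries (ZMod p)) → LaurentSeries (ZMod p)} (hf : Tk P f)
    (hg : Tk P g) (hh : Tk P h) : Rc P (fun v => ∃ z, z ∈ OO p ∧ f v - g v = h v * z) := by
  have h1 : Rc P (fun v => ∃ z, z ∈ OO p ∧ v 0 - v 1 = v 2 * z) := by
    refine Rc.ex' 3 ((rc_OO (Tk.var 3)).and (Rc.eqK ((Tk.var 0).sub (Tk.var 1))
      ((Tk.var 2).mul (Tk.var 3)))) fun v a c => ?_
    simp
  exact Rc.app3 (ρ := id) (σ := id) (τ := id) surjective_id surjective_id surjective_id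
    (R := fun x y w => ∃ z, z ∈ OO p ∧ x - y = w * z) h1 hf hg hh

/-- quantifier over a block of variables -/
theorem Rc.exB {K : Type} [CommRing K] {P : Set K} {R : (ℕ → K) → Prop} (hR : Rc P R) (N : ℕ) :
    Rc P (fun v => ∃ w : ℕ → K, (∀ j, N ≤ j → w j = v j) ∧ R w) := by
  induction N with
  | zero =>
    refine hR.congr fun v => ⟨fun h => ⟨v, fun _ _ => rfl, h⟩, ?_⟩
    rintro ⟨w, h1, h2⟩
    have : w = v := funext fun j => h1 j (Nat.zero_le _)
    rwa [this] at h2
  | succ N ih =>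
    refine (ih.ex N).congr fun v => ?_
    constructor
    · rintro ⟨a, w, h1, h2⟩
      exact ⟨w, fun j hj => by rw [h1 j (by omega), update_of_ne (by omega)], h2⟩
    · rintro ⟨w, h1, h2⟩
      refine ⟨w N, w, fun j hj => ?_, h2⟩
      rcases eq_or_ne j N with rfl | h3
      · rw [update_self]
      · rw [update_of_ne h3]
        exact h1 j (by omega)

end Pool.Agent.Helper14K9.PJ
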