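import Pool.Agent.Helper14K9.SO.Calc
import Pool.Agent.Y514.UF.REN

/-!
# Project PJ: a calculus of relations which are definable with parameters (helper14)

`Rc P R`: the relation `R` on assignments is definable in `(K, P)` with parameters.
A sort is a surjection `ρ : K → α` (for example `id`, or the map from the codes of the numbers to the
numbers); `Ts P ρ f` means that the `α`-valued function `f` of the assignment is definable.
-/

set_option autoImplicit false

namespace Pool.Agent.Helper14K9.PJ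

open Function
open Pool.Agent.Y924.EL Pool.Agent.Y924.UF
open Pool.Agent.Helper14K9.SO

section

variable {K : Type} [CommRing K] {P : Set K}

/-- the variables `v` at the even places, the parameters `a` at the odd places -/
def il (v a : ℕ → K) (j : ℕ) : K := if j % 2 = 0 then v (j / 2) else a (j / 2)

/-- definable with parameters -/
def Rc (P : Set K) (R : (ℕ → K) → Prop) : Prop :=
  ∃ (ψ : Fm) (a : ℕ → K), ∀ v, Sat P ψ (il v a) ↔ R v

theorem update_il (v a : ℕ → K) (i : ℕ) (x : K) :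
    update (il v a) (2 * i) x = il (update v i x) a := by
  funext j
  unfold il
  rcases eq_or_ne j (2 * i) with rfl | h
  · rw [update_self, if_pos (by omega), show 2 * i / 2 = i by omega, update_self]
  · rw [update_of_ne h]
    by_cases h2 : j % 2 = 0
    · rw [if_pos h2, if_pos h2, update_of_ne (by omega)]
    · rw [if_neg h2, if_neg h2]

theorem Rc.congr {R R' : (ℕ → K) → Prop} (hR : Rc P R) (h : ∀ v, R v ↔ R' v) : Rc P R' := by
  obtain ⟨ψ, a, hψ⟩ := hR
  exact ⟨ψ, a, fun v => (hψ v).trans (h v)⟩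

theorem Rc.not {R : (ℕ → K) → Prop} (hR : Rc P R) : Rc P (fun v => ¬ R v) := by
  obtain ⟨ψ, a, hψ⟩ := hR
  exact ⟨.neg ψ, a, fun v => not_congr (hψ v)⟩

theorem Rc.and {R R' : (ℕ → K) → Prop} (hR : Rc P R) (hR' : Rc P R') :
    Rc P (fun v => R v ∧ R' v) := by
  obtain ⟨ψ, a, hψ⟩ := hR
  obtain ⟨χ, b, hχ⟩ := hR'
  obtain ⟨V, hV⟩ := Pool.Agent.Y686.UF.t_CLO.1 ψ
  set σ : ℕ → ℕ := fun j => if j % 2 = 0 then j else j + 2 * V with hσ
  have hinj : Injective σ := by
    intro i j h
    simp only [hσ] at h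
    split_ifs at h <;> omega
  set c : ℕ → K := fun j => if j < V then a j else b (j - V) with hc
  refine ⟨.and ψ (ren σ χ), c, fun v => and_congr ?_ ?_⟩
  · rw [← hψ v]
    refine sat_agree P ψ (hV V le_rfl) _ _ fun j hj => ?_
    unfold il
    by_cases h2 : j % 2 = 0
    · rw [if_pos h2, if_pos h2]
    · rw [if_neg h2, if_neg h2, hc]
      simp only
      rw [if_pos (by omega)]
  · rw [← hχ v, Pool.Agent.Y514.UF.t_REN.1 K P σ hinj χ]
    have h1 : il v c ∘ σ = il v b := by
      funext j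
      simp only [comp_apply, il, hσ]
      by_cases h2 : j % 2 = 0
      · rw [if_pos h2, if_pos h2, if_pos h2]
      · rw [if_neg h2, if_neg h2, if_neg (by omega), hc]
        simp only
        rw [if_neg (by omega)]
        congr 1
        omega
    rw [h1]

theorem Rc.or {R R' : (ℕ → K) → Prop} (hR : Rc P R) (hR' : Rc P R') :
    Rc P (fun v => R v ∨ R' v) :=
  (hR.not.and hR'.not).not.congr fun v => by tauto

theorem Rc.imp {R R' : (ℕ → K) → Prop} (hR : Rc P R) (hR' : Rc P R') :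
    Rc P (fun v => R v → R' v) :=
  (hR.and hR'.not).not.congr fun v => by tauto

theorem Rc.iff {R R' : (ℕ → K) → Prop} (hR : Rc P R) (hR' : Rc P R') :
    Rc P (fun v => R v ↔ R' v) :=
  ((hR.imp hR').and (hR'.imp hR)).congr fun v => by tauto

theorem Rc.const (q : Prop) : Rc P (fun _ => q) := by
  by_cases h : q
  · exact ⟨.eq 0 0, fun _ => 0, fun v => by simp [Sat, h]⟩
  · exact ⟨.neg (.eq 0 0), fun _ => 0, fun v => by simp [Sat, h]⟩

theorem Rc.ex (i : ℕ) {R : (ℕ → K) → Prop} (hR : Rc P R) :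
    Rc P (fun v => ∃ a, R (update v i a)) := by
  obtain ⟨ψ, a, hψ⟩ := hR
  refine ⟨.ex (2 * i) ψ, a, fun v => ?_⟩
  show (∃ x, Sat P ψ (update (il v a) (2 * i) x)) ↔ _
  refine exists_congr fun x => ?_
  rw [update_il]
  exact hψ _

/-- finite disjunctions -/
theorem Rc.exFin {ι : Type} [Finite ι] {R : ι → (ℕ → K) → Prop} (hR : ∀ i, Rc P (R i)) :
    Rc P (fun v => ∃ i, R i v) := by
  classical
  have h : ∀ s : Finset ι, Rc P (fun v => ∃ i ∈ s, R i v) := by
    intro s
    induction s using Finset.induction_on with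
    | empty => exact (Rc.const False).congr fun v => by simp
    | insert a s _ ih =>
      refine ((hR a).or ih).congr fun v => ?_
      simp
  haveI := Fintype.ofFinite ι
  exact (h Finset.univ).congr fun v => by simp

/-- finite conjunctions -/
theorem Rc.allFin {ι : Type} [Finite ι] {R : ι → (ℕ → K) → Prop} (hR : ∀ i, Rc P (R i)) :
    Rc P (fun v => ∀ i, R i v) :=
  (Rc.exFin fun i => (hR i).not).not.congr fun v => by push Not; rfl

theorem Rc.eqV (i j : ℕ) : Rc P (fun v => v i = v j) :=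
  ⟨.eq (2 * i) (2 * j), fun _ => 0, fun v => by
    simp only [Sat, il]
    rw [if_pos (by omega), if_pos (by omega), show 2 * i / 2 = i by omega,
      show 2 * j / 2 = j by omega]⟩

theorem Rc.eqC (i : ℕ) (c : K) : Rc P (fun v => v i = c) :=
  ⟨.eq (2 * i) 1, fun _ => c, fun v => by
    simp only [Sat, il]
    rw [if_pos (by omega), if_neg (by norm_num), show 2 * i / 2 = i by omega]⟩

theorem Rc.memP (i : ℕ) : Rc P (fun v => v i ∈ P) :=
  ⟨.val (2 * i), fun _ => 0, fun v => by
    simp only [Sat, il]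
    rw [if_pos (by omega), show 2 * i / 2 = i by omega]⟩

theorem Rc.addV (i j k : ℕ) : Rc P (fun v => v i + v j = v k) :=
  ⟨.add (2 * i) (2 * j) (2 * k), fun _ => 0, fun v => by
    simp only [Sat, il]
    rw [if_pos (by omega), if_pos (by omega), if_pos (by omega), show 2 * i / 2 = i by omega,
      show 2 * j / 2 = j by omega, show 2 * k / 2 = k by omega]⟩

theorem Rc.mulV (i j k : ℕ) : Rc P (fun v => v i * v j = v k) :=
  ⟨.mul (2 * i) (2 * j) (2 * k), fun _ => 0, fun v => by
    simp only [Sat, il]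
    rw [if_pos (by omega), if_pos (by omega), if_pos (by omega), show 2 * i / 2 = i by omega,
      show 2 * j / 2 = j by omega, show 2 * k / 2 = k by omega]⟩

theorem Rc.fresh {R : (ℕ → K) → Prop} (hR : Rc P R) :
    ∃ N, ∀ j, N ≤ j → ∀ v a, (R (update v j a) ↔ R v) := by
  obtain ⟨ψ, b, hψ⟩ := hR
  obtain ⟨V, hV⟩ := Pool.Agent.Y686.UF.t_CLO.1 ψ
  refine ⟨V, fun j hj v a => ?_⟩
  rw [← hψ, ← hψ, ← update_il]
  refine sat_agree P ψ (hV V le_rfl) _ _ fun i hi => ?_
  rw [update_of_ne (by omega)]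

/-! ## Sorts -/

variable {α β γ δ : Type}

/-- definable `α`-valued functions of the assignment -/
def Ts (P : Set K) (ρ : K → α) (f : (ℕ → K) → α) : Prop :=
  ∃ N, ∀ j, N ≤ j → Rc P (fun v => f v = ρ (v j)) ∧ ∀ v a, f (update v j a) = f v

/-- equality of the sort is definable -/
def EqS (P : Set K) (ρ : K → α) : Prop := ∀ i j : ℕ, Rc P (fun v => ρ (v i) = ρ (v j))

theorem eqS_id : EqS P (id : K → K) := fun i j => Rc.eqV i j

theorem Ts.var {ρ : K → α} (h : EqS P ρ) (i : ℕ) : Ts P ρ (fun v => ρ (v i)) :=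
  ⟨i + 1, fun j hj => ⟨h i j, fun v a => by
    show ρ (update v j a i) = ρ (v i)
    rw [update_of_ne (by omega)]⟩⟩

theorem Ts.indep {ρ : K → α} {f : (ℕ → K) → α} (hf : Ts P ρ f) :
    ∃ N, ∀ j, N ≤ j → ∀ v a, f (update v j a) = f v := by
  obtain ⟨N, hN⟩ := hf
  exact ⟨N, fun j hj => (hN j hj).2⟩

/-- quantifier over a sort -/
theorem Rc.exS (i : ℕ) {ρ : K → α} (hρ : Surjective ρ) {R : (ℕ → K) → α → Prop}
    (hR : Rc P (fun v => R v (ρ (v i)))) (hi : ∀ v a c, R (update v i a) c ↔ R v c) :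
    Rc P (fun v => ∃ c, R v c) := by
  refine (hR.ex i).congr fun v => ?_
  constructor
  · rintro ⟨a, ha⟩
    rw [update_self] at ha
    exact ⟨_, (hi v a _).1 ha⟩
  · rintro ⟨c, hc⟩
    obtain ⟨a, rfl⟩ := hρ c
    refine ⟨a, ?_⟩
    rw [update_self]
    exact (hi v a _).2 hc

theorem Rc.allS (i : ℕ) {ρ : K → α} (hρ : Surjective ρ) {R : (ℕ → K) → α → Prop}
    (hR : Rc P (fun v => R v (ρ (v i)))) (hi : ∀ v a c, R (update v i a) c ↔ R v c) :
    Rc P (fun v => ∀ c, R v c) := by
  refine (Rc.exS i hρ (R := fun v c => ¬ R v c) hR.not fun v a c => not_congr (hi v a c)).not.congr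
    fun v => ?_
  push Not
  rfl

/-- quantifier over `K` -/
theorem Rc.ex' (i : ℕ) {R : (ℕ → K) → K → Prop} (hR : Rc P (fun v => R v (v i)))
    (hi : ∀ v a c, R (update v i a) c ↔ R v c) : Rc P (fun v => ∃ c, R v c) :=
  Rc.exS i (ρ := id) surjective_id hR hi

theorem Rc.all' (i : ℕ) {R : (ℕ → K) → K → Prop} (hR : Rc P (fun v => R v (v i)))
    (hi : ∀ v a c, R (update v i a) c ↔ R v c) : Rc P (fun v => ∀ c, R v c) :=
  Rc.allS i (ρ := id) surjective_id hR hi

/-- substitution of a definable value; `R` may depend on the assignment -/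
theorem Rc.app {ρ : K → α} (hρ : Surjective ρ) {R : (ℕ → K) → α → Prop} {f : (ℕ → K) → α}
    (hf : Ts P ρ f) (i : ℕ) (hR : Rc P (fun v => R v (ρ (v i))))
    (hi : ∀ v a c, R (update v i a) c ↔ R v c) : Rc P (fun v => R v (f v)) := by
  obtain ⟨N, hN⟩ := hR.fresh
  obtain ⟨M, hM⟩ := hf
  obtain ⟨j, hj⟩ : ∃ j, j = N + M + i + 1 := ⟨_, rfl⟩
  -- rename i to j
  have h1 : Rc P (fun v => R v (ρ (v j))) := by
    have h2 := (((Rc.eqV (P := P) i j).and hR).ex i)
    refine h2.congr fun v => ?_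
    have hij : j ≠ i := by omega
    simp only [update_self, update_of_ne hij]
    constructor
    · rintro ⟨a, h3, h4⟩
      rw [h3] at h4
      exact (hi v _ _).1 h4
    · intro h3
      exact ⟨v j, rfl, (hi v _ _).2 h3⟩
  have hj0 : ∀ v a c, R (update v j a) c ↔ R v c := by
    intro v a c
    obtain ⟨x, rfl⟩ := hρ c
    have h3 := hN j (by omega) (update v i x) a
    rw [update_comm (show i ≠ j by omega) x a v, update_self, update_self, hi, hi] at h3
    exact h3
  refine (Rc.exS j hρ (R := fun v c => f v = c ∧ R v c) (((hM j (by omega)).1).and h1)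
    fun v a c => ?_).congr fun v => ?_
  · rw [(hM j (by omega)).2, hj0]
  · constructor
    · rintro ⟨c, rfl, h3⟩
      exact h3
    · intro h3
      exact ⟨_, rfl, h3⟩

theorem Rc.app1 {ρ : K → α} (hρ : Surjective ρ) {R : α → Prop} (hR : Rc P (fun v => R (ρ (v 0))))
    {f : (ℕ → K) → α} (hf : Ts P ρ f) : Rc P (fun v => R (f v)) :=
  Rc.app hρ (R := fun _ c => R c) hf 0 hR fun _ _ _ => Iff.rfl

/-- renaming of the variables -/
theorem Rc.ren2 {ρ : K → α} {σ : K → β} {R : α → β → Prop}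
    (hR : Rc P (fun v => R (ρ (v 0)) (σ (v 1)))) (i j : ℕ) :
    Rc P (fun v => R (ρ (v i)) (σ (v j))) := by
  have h1 : Rc P (fun v => R (ρ (v (i + j + 2))) (σ (v (i + j + 3)))) := by
    have h2 := (((Rc.eqV (P := P) 0 (i + j + 2)).and (((Rc.eqV (P := P) 1 (i + j + 3)).and
      hR).ex 1)).ex 0)
    refine h2.congr fun v => ?_
    simp only [update_self, update_of_ne (show i + j + 2 ≠ 0 by omega),
      update_of_ne (show i + j + 3 ≠ 0 by omega), update_of_ne (show i + j + 3 ≠ 1 by omega),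
      update_of_ne (show (0 : ℕ) ≠ 1 by omega)]
    constructor
    · rintro ⟨a, rfl, b, rfl, h⟩
      exact h
    · intro h
      exact ⟨_, rfl, _, rfl, h⟩
  have h3 := (((Rc.eqV (P := P) (i + j + 2) i).and (((Rc.eqV (P := P) (i + j + 3) j).and
      h1).ex (i + j + 3))).ex (i + j + 2))
  refine h3.congr fun v => ?_
  simp only [update_self, update_of_ne (show i ≠ i + j + 2 by omega),
    update_of_ne (show j ≠ i + j + 2 by omega), update_of_ne (show j ≠ i + j + 3 by omega),
    update_of_ne (show i + j + 2 ≠ i + j + 3 by omega)]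
  constructor
  · rintro ⟨a, rfl, b, rfl, h⟩
    exact h
  · intro h
    exact ⟨_, rfl, _, rfl, h⟩

theorem Rc.app2 {ρ : K → α} {σ : K → β} (hρ : Surjective ρ) (hσ : Surjective σ)
    {R : α → β → Prop} (hR : Rc P (fun v => R (ρ (v 0)) (σ (v 1)))) {f : (ℕ → K) → α}
    {g : (ℕ → K) → β} (hf : Ts P ρ f) (hg : Ts P σ g) : Rc P (fun v => R (f v) (g v)) := by
  obtain ⟨N, hN⟩ := hf.indep
  obtain ⟨M, hM⟩ := hg.indep
  have h1 : Rc P (fun v => R (f v) (σ (v (N + 1)))) :=
    Rc.app hρ (R := fun v c => R c (σ (v (N + 1)))) hf N (Rc.ren2 hR N (N + 1))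
      fun v a c => by rw [update_of_ne (by omega)]
  exact Rc.app hσ (R := fun v c => R (f v) c) hg (N + 1) h1
    fun v a c => by rw [hN (N + 1) (by omega)]

theorem Rc.app3 {ρ : K → α} {σ : K → β} {τ : K → γ} (hρ : Surjective ρ) (hσ : Surjective σ)
    (hτ : Surjective τ) {R : α → β → γ → Prop}
    (hR : Rc P (fun v => R (ρ (v 0)) (σ (v 1)) (τ (v 2)))) {f : (ℕ → K) → α}
    {g : (ℕ → K) → β} {h : (ℕ → K) → γ} (hf : Ts P ρ f) (hg : Ts P σ g) (hh : Ts P τ h) :
    Rc P (fun v => R (f v) (g v) (h v)) := by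
  obtain ⟨N1, h1⟩ := hf.indep
  obtain ⟨N2, h2⟩ := hg.indep
  obtain ⟨N3, h3⟩ := hh.indep
  obtain ⟨N, hN⟩ : ∃ N, N = N1 + N2 + N3 + 3 := ⟨_, rfl⟩
  -- rename 0, 1, 2 to N, N + 1, N + 2
  have e1 : Rc P (fun v => R (ρ (v N)) (σ (v (N + 1))) (τ (v (N + 2)))) := by
    have e2 := (((Rc.eqV (P := P) 0 N).and (((Rc.eqV (P := P) 1 (N + 1)).and
      (((Rc.eqV (P := P) 2 (N + 2)).and hR).ex 2)).ex 1)).ex 0)
    refine e2.congr fun v => ?_
    simp only [update_self, update_of_ne (show N ≠ 0 by omega),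
      update_of_ne (show N + 1 ≠ 0 by omega), update_of_ne (show N + 2 ≠ 0 by omega),
      update_of_ne (show N + 1 ≠ 1 by omega), update_of_ne (show N + 2 ≠ 1 by omega),
      update_of_ne (show N + 2 ≠ 2 by omega),
      update_of_ne (show (0 : ℕ) ≠ 1 by omega), update_of_ne (show (0 : ℕ) ≠ 2 by omega),
      update_of_ne (show (1 : ℕ) ≠ 2 by omega)]
    constructor
    · rintro ⟨a, rfl, b, rfl, c, rfl, h⟩
      exact h
    · intro h
      exact ⟨_, rfl, _, rfl, _, rfl, h⟩
  have e3 : Rc P (fun v => R (f v) (σ (v (N + 1))) (τ (v (N + 2)))) :=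
    Rc.app hρ (R := fun v c => R c (σ (v (N + 1))) (τ (v (N + 2)))) hf N e1
      fun v a c => by rw [update_of_ne (by omega), update_of_ne (by omega)]
  have e4 : Rc P (fun v => R (f v) (g v) (τ (v (N + 2)))) :=
    Rc.app hσ (R := fun v c => R (f v) c (τ (v (N + 2)))) hg (N + 1) e3
      fun v a c => by rw [h1 (N + 1) (by omega), update_of_ne (by omega)]
  exact Rc.app hτ (R := fun v c => R (f v) (g v) c) hh (N + 2) e4
    fun v a c => by rw [h1 (N + 2) (by omega), h2 (N + 2) (by omega)]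

/-- definable operations -/
theorem Ts.op1 {ρ : K → α} {σ : K → β} (hρ : Surjective ρ) (hσ : Surjective σ) {F : α → β}
    (hF : Rc P (fun v => F (ρ (v 0)) = σ (v 1))) (hE : EqS P σ) {f : (ℕ → K) → α}
    (hf : Ts P ρ f) : Ts P σ (fun v => F (f v)) := by
  obtain ⟨N, hN⟩ := hf.indep
  refine ⟨N, fun j hj => ⟨?_, fun v a => by
    show F (f (update v j a)) = F (f v)
    rw [hN j hj]⟩⟩
  exact Rc.app2 hρ hσ (R := fun x y => F x = y) hF hf (Ts.var hE j)

theorem Ts.op2 {ρ : K → α} {σ : K → β} {τ : K → γ} (hρ : Surjective ρ) (hσ : Surjective σ)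
    (hτ : Surjective τ) {F : α → β → γ}
    (hF : Rc P (fun v => F (ρ (v 0)) (σ (v 1)) = τ (v 2))) (hE : EqS P τ) {f : (ℕ → K) → α}
    {g : (ℕ → K) → β} (hf : Ts P ρ f) (hg : Ts P σ g) : Ts P τ (fun v => F (f v) (g v)) := by
  obtain ⟨N1, h1⟩ := hf.indep
  obtain ⟨N2, h2⟩ := hg.indep
  refine ⟨N1 + N2, fun j hj => ⟨?_, fun v a => by
    show F (f (update v j a)) (g (update v j a)) = F (f v) (g v)
    rw [h1 j (by omega), h2 j (by omega)]⟩⟩
  exact Rc.app3 hρ hσ hτ (R := fun x y z => F x y = z) hF hf hg (Ts.var hE j)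

theorem Rc.eqT {ρ : K → α} (hρ : Surjective ρ) (hE : EqS P ρ) {f g : (ℕ → K) → α}
    (hf : Ts P ρ f) (hg : Ts P ρ g) : Rc P (fun v => f v = g v) :=
  Rc.app2 hρ hρ (R := fun x y => x = y) (hE 0 1) hf hg

/-- a definable function from its graph -/
theorem Ts.of_graph {ρ : K → α} (hρ : Surjective ρ) {f : (ℕ → K) → α} (i : ℕ)
    (h : Rc P (fun v => f v = ρ (v i))) (hi : ∀ v a, f (update v i a) = f v) : Ts P ρ f := by
  obtain ⟨N, hN⟩ := h.fresh
  refine ⟨N + i + 1, fun j hj => ⟨?_, fun v a => ?_⟩⟩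
  · have h2 := (((Rc.eqV (P := P) i j).and h).ex i)
    refine h2.congr fun v => ?_
    have hij : j ≠ i := by omega
    simp only [update_self, update_of_ne hij, hi]
    constructor
    · rintro ⟨a, rfl, h4⟩
      exact h4
    · intro h3
      exact ⟨_, rfl, h3⟩
  · obtain ⟨x, hx⟩ := hρ (f v)
    have h2 := (hN j (by omega) (update v i x) a).2 (by rw [hi, update_self, hx])
    rw [update_comm (show i ≠ j by omega) x a v, hi, update_self, hx] at h2
    exact h2

/-! ## The sort `K` -/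

/-- definable elements of `K` -/
abbrev Tk (P : Set K) (f : (ℕ → K) → K) : Prop := Ts P (id : K → K) f

theorem Tk.var (i : ℕ) : Tk P (fun v => v i) := Ts.var (ρ := id) eqS_id i

theorem Tk.const (c : K) : Tk P (fun _ => c) :=
  ⟨0, fun j _ => ⟨(Rc.eqC j c).congr fun v => eq_comm, fun _ _ => rfl⟩⟩

theorem Tk.add {f g : (ℕ → K) → K} (hf : Tk P f) (hg : Tk P g) : Tk P (fun v => f v + g v) :=
  Ts.op2 surjective_id surjective_id surjective_id (Rc.addV 0 1 2) eqS_id hf hg

theorem Tk.mul {f g : (ℕ → K) → K} (hf : Tk P f) (hg : Tk P g) : Tk P (fun v => f v * g v) :=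
  Ts.op2 surjective_id surjective_id surjective_id (Rc.mulV 0 1 2) eqS_id hf hg

theorem Tk.sub {f g : (ℕ → K) → K} (hf : Tk P f) (hg : Tk P g) : Tk P (fun v => f v - g v) :=
  Ts.op2 surjective_id surjective_id surjective_id (F := fun x y => x - y)
    ((Rc.addV 2 1 0).congr fun v => by
      show v 2 + v 1 = v 0 ↔ v 0 - v 1 = v 2
      rw [sub_eq_iff_eq_add]
      exact eq_comm) eqS_id hf hg

theorem Tk.pow {f : (ℕ → K) → K} (hf : Tk P f) : ∀ n : ℕ, Tk P (fun v => f v ^ n)
  | 0 => by simpa using (Tk.const (1 : K) : Tk P (fun _ => (1 : K)))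
  | n + 1 => by
    have h := (Tk.pow hf n).mul hf
    simpa only [pow_succ] using h

theorem Rc.eqK {f g : (ℕ → K) → K} (hf : Tk P f) (hg : Tk P g) : Rc P (fun v => f v = g v) :=
  Rc.eqT surjective_id eqS_id hf hg

/-- a relation which is definable without parameters -/
theorem Rc.of_rl {R : (ℕ → K) → Prop} (hR : Rl P R) : Rc P R := by
  obtain ⟨ψ, hψ⟩ := hR
  have hinj : Injective (fun j : ℕ => 2 * j) := fun i j h => by simpa using h
  refine ⟨ren (fun j => 2 * j) ψ, fun _ => 0, fun v => ?_⟩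
  rw [Pool.Agent.Y514.UF.t_REN.1 K P _ hinj ψ, ← hψ v]
  have h1 : il v (fun _ => 0) ∘ (fun j => 2 * j) = v := by
    funext j
    simp only [comp_apply, il]
    rw [if_pos (by omega)]
    congr 1
    omega
  rw [h1]

/-- substitution of one term -/
theorem Rc.sub {R : (ℕ → K) → Prop} (hR : Rc P R) {f : (ℕ → K) → K} (hf : Tk P f) (i : ℕ) :
    Rc P (fun v => R (update v i (f v))) := by
  refine Rc.app (ρ := id) surjective_id (R := fun v c => R (update v i c)) hf i ?_
    fun v a c => by rw [update_idem]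
  exact hR.congr fun v => by simp

/-- substitution of constants for the variables below `N` -/
theorem Rc.consts {R : (ℕ → K) → Prop} (hR : Rc P R) (w : ℕ → K) (N : ℕ) :
    Rc P (fun v => R (fun j => if j < N then w j else v j)) := by
  induction N with
  | zero => simpa using hR
  | succ N ih =>
    refine (ih.sub (Tk.const (w N)) N).congr fun v => ?_
    have : (fun j => if j < N then w j else update v N (w N) j) =
        (fun j => if j < N + 1 then w j else v j) := by
      funext j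
      by_cases h1 : j < N
      · rw [if_pos h1, if_pos (by omega)]
      · rw [if_neg h1]
        rcases eq_or_ne j N with rfl | h2
        · rw [update_self, if_pos (by omega)]
        · rw [update_of_ne h2, if_neg (by omega)]
    rw [this]

end

end Pool.Agent.Helper14K9.PJ
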