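import Pool.Agent.Helper14K9.PJ.Pro
import Pool.Agent.Helper12K9.SO.Geo
import Pool.Agent.Helper14K9.SO.Reld

/-! # Project PJ: discrete definable sets and locally finite values (helper14) -/

set_option autoImplicit false

namespace Pool.Agent.Helper14K9.PJ

open Function
open Pool.Agent.Y924.EL Pool.Agent.Y924.UF
open Pool.Agent.Helper14K9.SO
open Pool.Agent.Results.MP_db9079_lc.UniformFiniteness
open Pool.Agent.Results.MP_db9079_lc.LocallyFiniteValues

variable {p : ℕ} [Fact p.Prime]

theorem iso_sub (P : Set (LaurentSeries (ZMod p))) (φ : Fm) (n : ℕ)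
    (v : ℕ → LaurentSeries (ZMod p)) :
    Iso p (DSet p P φ n v) ⊆ LFV p (DRel p P (idF n φ) n n (fun i => v (i - n))) := by
  rintro x ⟨hx, b, hb, h2⟩
  refine ⟨x, (drel_idF P φ n v x x).2 ⟨hx, rfl⟩, b, hb, (Set.finite_singleton x).subset ?_⟩
  rintro y' ⟨x', h3, h4⟩
  obtain ⟨h5, rfl⟩ := (drel_idF P φ n v x' y').1 h3
  exact h2 y' h5 h4

/-- `x'` is in `x + b O` iff it is near `x` -/
theorem near_one (b x x' : LaurentSeries (ZMod p)) :
    Near p b (fun _ : Fin 1 => x) (fun _ => x') ↔ ∃ z ∈ ValRing p, x + b * z = x' :=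
  ⟨fun h => h 0, fun h _ => h⟩

/-- a scattered set with finitely many isolated points is finite -/
theorem finite_of_iso (S : Set (LaurentSeries (ZMod p))) (hS : Scattered p S)
    (hI : {x | x ∈ S ∧ ∃ b : LaurentSeries (ZMod p), b ≠ 0 ∧
      ∀ y ∈ S, (∃ z ∈ ValRing p, x + b * z = y) → y = x}.Finite) : S.Finite := by
  set I := {x | x ∈ S ∧ ∃ b : LaurentSeries (ZMod p), b ≠ 0 ∧
      ∀ y ∈ S, (∃ z ∈ ValRing p, x + b * z = y) → y = x} with hIdef
  by_contra hinf
  have hne : (S \ I).Nonempty := by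
    by_contra hne
    rw [Set.not_nonempty_iff_eq_empty, Set.sdiff_eq_empty] at hne
    exact hinf (hI.subset hne)
  obtain ⟨x, hx, b, hb, h1⟩ := hS _ Set.sdiff_subset hne
  refine hx.2 ⟨hx.1, ?_⟩
  -- a radius below `b` which separates `x` from the finitely many isolated points
  have key : ∀ T : Set (LaurentSeries (ZMod p)), T.Finite → x ∉ T → ∃ b' : LaurentSeries (ZMod p),
      b' ≠ 0 ∧ (∀ y, (∃ z ∈ ValRing p, x + b' * z = y) → ∃ z ∈ ValRing p, x + b * z = y) ∧
      ∀ y ∈ T, ¬ ∃ z ∈ ValRing p, x + b' * z = y := by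
    intro T hT
    induction T, hT using Set.Finite.induction_on with
    | empty =>
      intro _
      exact ⟨b, hb, fun y hy => hy, fun y hy => hy.elim⟩
    | @insert a T _ _ ih =>
      intro hxa
      obtain ⟨b', hb', h2, h3⟩ := ih fun h => hxa (Set.mem_insert_of_mem _ h)
      have hax : a ≠ x := fun h => hxa (by rw [h]; exact Set.mem_insert _ _)
      have ht : (HahnSeries.single (1 : ℤ) (1 : ZMod p) : LaurentSeries (ZMod p)) ≠ 0 :=
        Pool.Agent.R794.FP.single_ne 1
      have hprod : ∀ z ∈ ValRing p, ∀ z' ∈ ValRing p, z * z' ∈ ValRing p := by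
        rintro _ ⟨f, rfl⟩ _ ⟨g, rfl⟩
        exact ⟨f * g, map_mul _ _ _⟩
      have htO : (HahnSeries.single (1 : ℤ) (1 : ZMod p) : LaurentSeries (ZMod p)) ∈ ValRing p :=
        ⟨PowerSeries.X, by simp⟩
      -- either a is not in x + b' O, or replace b' by t (a - x)
      by_cases hc : ∃ z ∈ ValRing p, x + b' * z = a
      · obtain ⟨z, hz, h4⟩ := hc
        have hbz : b' * z = a - x := by rw [← h4]; ring
        refine ⟨HahnSeries.single (1 : ℤ) (1 : ZMod p) * (a - x),
          mul_ne_zero ht (sub_ne_zero.2 hax), ?_, ?_⟩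
        · rintro y ⟨w, hw, h5⟩
          refine h2 y ⟨z * (HahnSeries.single (1 : ℤ) (1 : ZMod p) * w),
            hprod _ hz _ (hprod _ htO _ hw), ?_⟩
          rw [← h5, ← hbz]
          ring
        · rintro y hy ⟨w, hw, h5⟩
          rcases Set.mem_insert_iff.1 hy with rfl | hy'
          · have h6 : HahnSeries.single (1 : ℤ) (1 : ZMod p) * w = 1 := by
              have h7 : (HahnSeries.single (1 : ℤ) (1 : ZMod p) * w - 1) * (y - x) = 0 := by
                have h8 : HahnSeries.single (1 : ℤ) (1 : ZMod p) * (y - x) * w = y - x := by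
                  rw [eq_sub_iff_add_eq, add_comm]
                  exact h5
                linear_combination h8
              rcases mul_eq_zero.1 h7 with h8 | h8
              · exact sub_eq_zero.1 h8
              · exact absurd (sub_eq_zero.1 h8) hax
            obtain ⟨f, rfl⟩ := hw
            have h7 : (PowerSeries.X : PowerSeries (ZMod p)) * f = 1 := by
              refine (IsFractionRing.injective (PowerSeries (ZMod p))
                (LaurentSeries (ZMod p))) ?_
              rw [map_mul, map_one]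
              rw [← h6]
              congr 1
              simp
            have h8 := congrArg (PowerSeries.coeff 0) h7
            simp at h8
          · refine h3 y hy' ⟨z * (HahnSeries.single (1 : ℤ) (1 : ZMod p) * w),
              hprod _ hz _ (hprod _ htO _ hw), ?_⟩
            rw [← h5, ← hbz]
            ring
      · refine ⟨b', hb', h2, fun y hy => ?_⟩
        rcases Set.mem_insert_iff.1 hy with rfl | hy'
        · exact hc
        · exact h3 y hy'
  obtain ⟨b', hb', h2, h3⟩ := key I hI hx.2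
  refine ⟨b', hb', fun y hy hz => ?_⟩
  by_cases hyI : y ∈ I
  · exact absurd hz (h3 y hyI)
  · exact h1 y ⟨hy, hyI⟩ (h2 y hz)

theorem dset_one (P : Set (LaurentSeries (ZMod p))) (φ : Fm) (v : ℕ → LaurentSeries (ZMod p))
    (x : LaurentSeries (ZMod p)) : (fun _ : Fin 1 => x) ∈ DSet p P φ 1 v ↔ x ∈ Dfn p P φ v := by
  unfold DSet Dfn
  rw [Set.mem_ofPred_eq, Set.mem_ofPred_eq]
  have h : (fun i => if h : i < 1 then (fun _ : Fin 1 => x) ⟨i, h⟩ else v i) = update v 0 x := by
    funext i
    rcases Nat.eq_zero_or_pos i with rfl | h0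
    · simp
    · rw [dif_neg (by omega), update_of_ne (by omega)]
  rw [h]

/-- a relation with infinitely many locally finite values -/
theorem lfs_of_lfv (P : Set (LaurentSeries (ZMod p))) (φ : Fm) (n m : ℕ)
    (v : ℕ → LaurentSeries (ZMod p)) (hv : (LFV p (DRel p P φ n m v)).Infinite) :
    ∃ (ψ : Fm) (w : ℕ → LaurentSeries (ZMod p)), (LFS p (DefP P ψ w)).Infinite := by
  obtain ⟨ψ, w, hw⟩ := reld p P φ n m v
  have h1 := Pool.Agent.Helper12K9.SO.geo p n m _ hv
  rw [← hw] at h1
  exact ⟨ψ, w, h1⟩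

/-- infinitely many isolated points -/
theorem lfv_of_iso (P : Set (LaurentSeries (ZMod p))) (φ : Fm)
    (v : ℕ → LaurentSeries (ZMod p))
    (hI : {x | x ∈ Dfn p P φ v ∧ ∃ b : LaurentSeries (ZMod p), b ≠ 0 ∧
      ∀ y ∈ Dfn p P φ v, (∃ z ∈ ValRing p, x + b * z = y) → y = x}.Infinite) :
    (LFV p (DRel p P (idF 1 φ) 1 1 (fun i => v (i - 1)))).Infinite := by
  intro hfin
  refine hI ?_
  have h1 := hfin.subset (iso_sub P φ 1 v)
  refine Set.Finite.of_finite_image (f := fun x => (fun _ : Fin 1 => x)) (h1.subset ?_) ?_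
  · rintro _ ⟨x, ⟨hx, b, hb, h2⟩, rfl⟩
    refine ⟨(dset_one P φ v x).2 hx, b, hb, fun x' hx' hn => ?_⟩
    have h3 : x' = fun _ => x' 0 := by
      funext i
      rw [Subsingleton.elim i 0]
    rw [h3] at hx' hn
    rw [h3, h2 (x' 0) ((dset_one P φ v _).1 hx') ((near_one b x (x' 0)).1 hn)]
  · intro a _ b _ hab
    exact congrFun hab 0

/-- an infinite scattered definable set gives infinitely many locally finite values -/
theorem lfv_of_scattered (P : Set (LaurentSeries (ZMod p))) (φ : Fm)
    (v : ℕ → LaurentSeries (ZMod p)) (hinf : (Dfn p P φ v).Infinite)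
    (hS : Scattered p (Dfn p P φ v)) :
    (LFV p (DRel p P (idF 1 φ) 1 1 (fun i => v (i - 1)))).Infinite :=
  lfv_of_iso P φ v fun hI => hinf (finite_of_iso _ hS hI)

/-- a set of powers of `t` is discrete -/
theorem discr_powers (E : Set (LaurentSeries (ZMod p)))
    (hE : ∀ x ∈ E, ∃ n : ℕ, x = tq p ^ n) : Discr p E := by
  intro x hx
  obtain ⟨n, hn⟩ := hE x hx
  refine ⟨tq p ^ (n + 1), ?_, fun y hy hz => ?_⟩
  · unfold tq
    exact pow_ne_zero _ (Pool.Agent.R794.FP.single_ne 1)
  · obtain ⟨m, hm⟩ := hE y hy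
    obtain ⟨z, ⟨f, rfl⟩, h1⟩ := hz
    have key : ∀ k : ℕ, tq p ^ k = algebraMap (PowerSeries (ZMod p)) (LaurentSeries (ZMod p))
        (PowerSeries.X ^ k) := by
      intro k
      rw [map_pow]
      congr 1
      simp [tq]
    rw [hn, hm, key, key, key, ← map_mul, ← map_add] at h1
    have h2 := IsFractionRing.injective (PowerSeries (ZMod p)) (LaurentSeries (ZMod p)) h1
    have h3 := congrArg (PowerSeries.coeff n) h2
    rw [map_add, PowerSeries.coeff_X_pow_self, PowerSeries.coeff_X_pow, pow_succ, mul_assoc,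
      PowerSeries.coeff_X_pow_mul'] at h3
    simp only [le_refl, if_true, Nat.sub_self, PowerSeries.coeff_zero_X_mul, add_zero] at h3
    by_cases h4 : n = m
    · rw [hn, hm, h4]
    · rw [if_neg h4] at h3
      exact absurd h3 one_ne_zero

/-- uniform finiteness fails iff ... : the case of an infinite definable set of powers of `t` -/
theorem lfv_of_powers (P : Set (LaurentSeries (ZMod p))) (E : Set (LaurentSeries (ZMod p)))
    (hinf : E.Infinite) (hE : ∀ x ∈ E, ∃ n : ℕ, x = tq p ^ n) (hR : Rc P (fun v => v 0 ∈ E)) :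
    ∃ (φ : Fm) (v : ℕ → LaurentSeries (ZMod p)), (LFV p (DRel p P φ 1 1 v)).Infinite := by
  obtain ⟨φ, w, hw⟩ := dfn_of_rc hR
  refine ⟨_, _, lfv_of_scattered P φ w ?_ ?_⟩
  · rw [hw]; exact hinf
  · rw [hw]; exact scattered_of_discr p E (discr_powers E hE)

end Pool.Agent.Helper14K9.PJ
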