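import Pool.Agent.Helper14K9.PJ.Base

/-! # Project PJ: projective sets; from `Rc` to formulas (helper14) -/

set_option autoImplicit false

namespace Pool.Agent.Helper14K9.PJ

open Function
open Pool.Agent.Y924.EL Pool.Agent.Y924.UF
open Pool.Agent.Helper14K9.SO
open Pool.Agent.Results.MP_db9079_lc.UniformFiniteness
open Pool.Agent.Results.MP_db9079_lc.LocallyFiniteValues

/-- the projective subsets of `K^n`: they are obtained from the closed sets by complements,
intersections and projections along `K` -/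
inductive Proj (p : ℕ) : (n : ℕ) → Set (Fin n → LaurentSeries (ZMod p)) → Prop
  | closed {n : ℕ} (C : Set (Fin n → LaurentSeries (ZMod p))) : ClosedN C → Proj p n C
  | compl {n : ℕ} (X : Set (Fin n → LaurentSeries (ZMod p))) : Proj p n X → Proj p n Xᶜ
  | inter {n : ℕ} (X Y : Set (Fin n → LaurentSeries (ZMod p))) : Proj p n X → Proj p n Y →
      Proj p n (X ∩ Y)
  | proj {n : ℕ} (X : Set (Fin (n + 1) → LaurentSeries (ZMod p))) : Proj p (n + 1) X →
      Proj p n {x | ∃ a, (fun i : Fin (n + 1) => if h : (i : ℕ) < n then x ⟨i, h⟩ else a) ∈ X}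

variable {p : ℕ} [Fact p.Prime] {P : Set (LaurentSeries (ZMod p))}

theorem rc_proj (hC : ∀ (n : ℕ) (C : Set (Fin n → LaurentSeries (ZMod p))), ClosedN C →
    Rc P (fun v => (fun i : Fin n => v i) ∈ C)) (n : ℕ)
    (X : Set (Fin n → LaurentSeries (ZMod p))) (hX : Proj p n X) :
    Rc P (fun v => (fun i : Fin n => v i) ∈ X) := by
  induction hX with
  | closed C h => exact hC _ C h
  | compl X _ ih => exact ih.not
  | inter X Y _ _ ih1 ih2 => exact ih1.and ih2
  | @proj n X _ ih =>
    refine (ih.ex n).congr fun v => exists_congr fun a => ?_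
    have h : (fun i : Fin (n + 1) => update v n a i) =
        (fun i : Fin (n + 1) => if h : (i : ℕ) < n then (fun i : Fin n => v i) ⟨i, h⟩ else a) := by
      funext i
      by_cases h1 : (i : ℕ) < n
      · rw [dif_pos h1, update_of_ne (by omega)]
      · rw [dif_neg h1, show (i : ℕ) = n by omega, update_self]
    rw [h]

/-- a set which is definable in the sense of `Rc` is definable by a formula with parameters -/
theorem dset_of_rc {n : ℕ} {X : Set (Fin n → LaurentSeries (ZMod p))}
    (h : Rc P (fun v => (fun i : Fin n => v i) ∈ X)) : ∃ φ w, DSet p P φ n w = X := by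
  obtain ⟨ψ, a, hψ⟩ := h
  set σ : ℕ → ℕ := fun j => if j % 2 = 0 ∧ j / 2 < n then j / 2 else j + n with hσ
  have hinj : Injective σ := by
    intro i j h
    simp only [hσ] at h
    split_ifs at h <;> omega
  refine ⟨ren σ ψ, fun i => il (fun _ => 0) a (i - n), ?_⟩
  ext x
  unfold DSet
  rw [Set.mem_ofPred_eq, Pool.Agent.Y514.UF.t_REN.1 _ P σ hinj ψ]
  have h1 : ((fun i => if h : i < n then x ⟨i, h⟩ else il (fun _ => 0) a (i - n)) ∘ σ) =
      il (fun i => if h : i < n then x ⟨i, h⟩ else 0) a := by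
    funext j
    simp only [comp_apply, hσ]
    by_cases h1 : j % 2 = 0 ∧ j / 2 < n
    · rw [if_pos h1, dif_pos h1.2]
      unfold il
      rw [if_pos h1.1]
      show _ = (if h : j / 2 < n then x ⟨j / 2, h⟩ else 0)
      rw [dif_pos h1.2]
    · rw [if_neg h1, dif_neg (by omega), Nat.add_sub_cancel]
      unfold il
      by_cases h2 : j % 2 = 0
      · rw [if_pos h2, if_pos h2]
        show _ = (if h : j / 2 < n then x ⟨j / 2, h⟩ else 0)
        rw [dif_neg (by omega)]
      · rw [if_neg h2, if_neg h2]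
  rw [h1]
  refine (hψ _).trans ?_
  have h2 : (fun i : Fin n => if h : (i : ℕ) < n then x ⟨i, h⟩ else 0) = x := by
    funext i
    rw [dif_pos i.2]
  show (fun i : Fin n => if h : (i : ℕ) < n then x ⟨i, h⟩ else 0) ∈ X ↔ x ∈ X
  rw [h2]

theorem dfn_of_rc {X : Set (LaurentSeries (ZMod p))} (h : Rc P (fun v => v 0 ∈ X)) :
    ∃ φ w, Dfn p P φ w = X := by
  obtain ⟨ψ, a, hψ⟩ := h
  refine ⟨ψ, il (fun _ => 0) a, ?_⟩
  ext x
  unfold Dfn
  rw [Set.mem_ofPred_eq, show (0 : ℕ) = 2 * 0 from rfl, update_il]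
  refine (hψ _).trans ?_
  show update (fun _ : ℕ => (0 : LaurentSeries (ZMod p))) 0 x 0 ∈ X ↔ x ∈ X
  rw [update_self]

end Pool.Agent.Helper14K9.PJ
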