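import Pool.Agent.Helper14K9.PJ.Calc
import Pool.Agent.Helper14K9.SO.St2

/-!
# Project PJ (MP_db9079_lc): if uniform finiteness fails, all projective sets are definable

`K = F_p((t))` with a unary predicate `P`.  Definability with parameters: `Rc P R`, see `Calc.lean`
(and `Base.lean` for the valuation ring, the coefficient of `t ^ 0` and inverses).

The numbers are a sort: a surjection `ρ : K → ℕ`, see `Num`. The sort `F_p` is `lam : K → F_p`.
-/

set_option autoImplicit false

namespace Pool.Agent.Helper14K9.PJ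

open Function
open Pool.Agent.Y924.EL Pool.Agent.Y924.UF
open Pool.Agent.Helper14K9.SO

/-- the element `t` -/
noncomputable def tq (p : ℕ) : LaurentSeries (ZMod p) := HahnSeries.single (1 : ℤ) (1 : ZMod p)

/-- the coefficient of `t ^ 0` -/
def lam {p : ℕ} (z : LaurentSeries (ZMod p)) : ZMod p := z.coeff 0

/-- `z` is in `t ^ N O` -/
def Vle {p : ℕ} (N : ℤ) (z : LaurentSeries (ZMod p)) : Prop := ∀ n < N, z.coeff n = 0

section

variable {p : ℕ} [Fact p.Prime]

/-- a definable family of finite sets (it does not depend on the variable 0, which is used for the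
elements) -/
structure Fam (P : Set (LaurentSeries (ZMod p)))
    (X : (ℕ → LaurentSeries (ZMod p)) → Set (LaurentSeries (ZMod p))) : Prop where
  mem : Rc P (fun v => v 0 ∈ X v)
  ind : ∀ v a, X (update v 0 a) = X v
  fin : ∀ v, (X v).Finite

/-- the numbers of elements of finite definable sets -/
structure Num (P : Set (LaurentSeries (ZMod p))) (ρ : LaurentSeries (ZMod p) → ℕ) : Prop where
  surj : Surjective ρ
  eqS : EqS P ρ
  add : Rc P (fun v => ρ (v 0) + ρ (v 1) = ρ (v 2))
  card : ∀ X, Fam P X → Ts P ρ (fun v => (X v).ncard)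

/-- uniform finiteness fails -/
def Unb (P : Set (LaurentSeries (ZMod p))) : Prop :=
  ∃ φ : Fm, ∀ N : ℕ, ∃ v, (DefP P φ v).Finite ∧ N < (DefP P φ v).ncard

end

/-- [CNT] equality and addition of numbers of elements (from `S_SEM1` of `Y924/UF/Stm3.lean`, which
is about formulas `h 0, h 1, h 2` whose parameters are not among the first 100 variables, and from
`t_CEQ`, `t_CADD`, see `ind_all` in the results file UniformFiniteness). If `ψ` is a formula for
`v 0 ∈ X v` then take `ren σ ψ` with `σ 0 = 0`, `σ j = j + 100` for `j ≥ 1`, as hole 0; in the end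
rename back injectively: `j + 100 ↦ j` for the finitely many variables which occur, the other
variables to fresh places (they do not matter, by `S_SEM1`). -/
def S_CNT : Prop := ∀ (p : ℕ) [Fact p.Prime] (P : Set (LaurentSeries (ZMod p)))
  (X Y Z : (ℕ → LaurentSeries (ZMod p)) → Set (LaurentSeries (ZMod p))),
  Fam P X → Fam P Y → Fam P Z →
    Rc P (fun v => (X v).ncard = (Y v).ncard) ∧
    Rc P (fun v => (X v).ncard + (Y v).ncard = (Z v).ncard)

/-- [NUM] (from `S_CNT` and `S_FULL`, which holds: `Pool.Agent.Y409.UF.t_FULL code_all t_CLO`.)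
There is a formula `φ'` with the parameters `x_1, ..., x_(V-1)` such that each number is the number
of elements of a set `DefP P φ' v`. `ρ z` is the number of elements of `DefP P φ' x` if this is
finite and if `z` is the code of the tuple `x_1, ..., x_(V-1)`, otherwise `0` (for the coding of
tuples: `tm_cdl` in `Helper14K9/SO/Reld.lean`, `cdl` and its injectivity in `R794/FP/Code.lean`;
finiteness is definable: `S_FIN`, `t_FIN`, with `rc_OO`). -/
def S_NUM : Prop := ∀ (p : ℕ) [Fact p.Prime] (P : Set (LaurentSeries (ZMod p))), Unb P →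
  ∃ ρ : LaurentSeries (ZMod p) → ℕ, Num P ρ

/-- [SUM] sums over finite definable sets. First for `F_p`-valued `g`: the sum of the values is the
sum over `a` in `F_p` of `a * (number of the x with g v x = a)`, and the class modulo `p` of a
number is definable (`n = m + ... + m + j`). Then `y = ∑ f v x` iff `lam (c y) = ∑ lam (c f v x)`
for all `c`. -/
def S_SUM : Prop := ∀ (p : ℕ) [Fact p.Prime] (P : Set (LaurentSeries (ZMod p)))
  (ρ : LaurentSeries (ZMod p) → ℕ), Num P ρ →
  ∀ (X : (ℕ → LaurentSeries (ZMod p)) → Set (LaurentSeries (ZMod p))), Fam P X →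
  ∀ (f : (ℕ → LaurentSeries (ZMod p)) → LaurentSeries (ZMod p) → LaurentSeries (ZMod p)) (i : ℕ),
    i ≠ 0 → Rc P (fun v => f v (v 0) = v i) → (∀ v a, f (update v 0 a) = f v) →
    (∀ v a, f (update v i a) = f v) → (∀ v a, X (update v i a) = X v) →
    Tk P (fun v => ∑ᶠ x ∈ X v, f v x)

/-- [LIM] for a finite subgroup `G` and `σ y = ∑ 1 / (y - h)` over `h` in `G`: `σ y` is a nonzero
constant divided by `∏ (y - h)`: the derivative of `∏ (Y - h)` is constant, since it is invariant
under `G` and of degree less than the order of `G`. So `σ l / σ (l x) = ∏ (l x - h) / (l - h)` goes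
to `x` to the power of the order of `G` if `l` goes to infinity. -/
def S_LIM : Prop := ∀ (p : ℕ) [Fact p.Prime] (G : AddSubgroup (LaurentSeries (ZMod p))),
  (G : Set (LaurentSeries (ZMod p))).Finite → ∀ x : LaurentSeries (ZMod p), x ≠ 0 → ∀ N : ℤ,
  ∃ M : ℤ, ∀ l : LaurentSeries (ZMod p), l ≠ 0 → l.order < M →
    Vle N ((∑ᶠ h ∈ (G : Set (LaurentSeries (ZMod p))), (l - h)⁻¹) /
      (∑ᶠ h ∈ (G : Set (LaurentSeries (ZMod p))), (l * x - h)⁻¹) -
      x ^ (G : Set (LaurentSeries (ZMod p))).ncard)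

/-- [POW] (from `S_SUM`, `S_LIM`) the power with the order of a finite group as exponent -/
def S_POW : Prop := ∀ (p : ℕ) [Fact p.Prime] (P : Set (LaurentSeries (ZMod p)))
  (ρ : LaurentSeries (ZMod p) → ℕ), Num P ρ →
  ∀ (X : (ℕ → LaurentSeries (ZMod p)) → Set (LaurentSeries (ZMod p))), Fam P X →
  (∀ v, ∃ G : AddSubgroup (LaurentSeries (ZMod p)), (G : Set (LaurentSeries (ZMod p))) = X v) →
  ∀ f, Tk P f → Tk P (fun v => f v ^ (X v).ncard)

/-- [DIS] (from `S_NUM`, `S_POW`, `S_DUAL`) If uniform finiteness fails then an infinite set of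
powers `t ^ (p ^ n)` is definable: the double annihilators of the finite sets `DefP P φ v` are
groups `G` of the orders `p ^ n`, `n` not bounded; take the `t ^ (order of G)`. -/
def S_DIS : Prop := ∀ (p : ℕ) [Fact p.Prime] (P : Set (LaurentSeries (ZMod p))), Unb P →
  ∃ E : Set (LaurentSeries (ZMod p)), E.Infinite ∧ (∀ x ∈ E, ∃ n : ℕ, x = tq p ^ (p ^ n)) ∧
    Rc P (fun v => v 0 ∈ E)

/-- a sequence which is definable with its order, and whose distances to `s` decrease -/
structure Env {p : ℕ} [Fact p.Prime] (P : Set (LaurentSeries (ZMod p)))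
    (s : LaurentSeries (ZMod p)) (e : ℕ → LaurentSeries (ZMod p)) : Prop where
  ne : ∀ n, e n ≠ s
  mono : StrictMono fun n => (s - e n).order
  mem : Rc P (fun v => ∃ n, v 0 = e n)
  lt : Rc P (fun v => ∃ n m, v 0 = e n ∧ v 1 = e m ∧ n < m)

/-- [ENV] (from `for_`, `exi_all`, `full_all` of project SO; `Rc.of_rl`, `Rc.consts`, `Rc.sub`) -/
def S_ENV : Prop := ∀ (p : ℕ) [Fact p.Prime] (P : Set (LaurentSeries (ZMod p))) (φ : Fm)
  (w : ℕ → LaurentSeries (ZMod p)), (LFS p (DefP P φ w)).Infinite → ∃ s e, Env P s e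

/-- [GRP] the group `G n` is the span of `s - e i`, `i < n`; it is the double annihilator of these
elements for `lam (c y)` -/
def S_GRP : Prop := ∀ (p : ℕ) [Fact p.Prime] (P : Set (LaurentSeries (ZMod p)))
  (ρ : LaurentSeries (ZMod p) → ℕ), Num P ρ → ∀ s e, Env P s e →
  ∃ G : ℕ → AddSubgroup (LaurentSeries (ZMod p)),
    (∀ n, (G n : Set (LaurentSeries (ZMod p))).Finite ∧
      (G n : Set (LaurentSeries (ZMod p))).ncard = p ^ n) ∧
    Rc P (fun v => v 0 ∈ G (ρ (v 1)))

/-- the uniform definability of the powers of the Frobenius -/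
def Frb {p : ℕ} [Fact p.Prime] (P : Set (LaurentSeries (ZMod p)))
    (ρ : LaurentSeries (ZMod p) → ℕ) : Prop := Rc P (fun v => (v 0) ^ (p ^ ρ (v 1)) = v 2)

/-- [TPW] `D Y n k y`: `lam (c ^ (p ^ n) * (t ^ (p ^ k))⁻¹ * Y) = lam (c * y)` for all `c`. If
`Y = ∑ t ^ (p ^ i) y_i ^ (p ^ n)`, sum over `i < n`, then `D Y n k y` iff `y = y_k`, for `k < n`.
`y = t ^ m` iff there are `n > m`, `Y` with `D Y n 0 1`, with `D Y n m y`, and for all `k < m` there
is a `w` with `D Y n k w` and `D Y n (k + 1) (t w)`. (Numbers: `<` from `Num.add`; constants `0`,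
`1` of the number sort.) -/
def S_TPW : Prop := ∀ (p : ℕ) [Fact p.Prime] (P : Set (LaurentSeries (ZMod p)))
  (ρ : LaurentSeries (ZMod p) → ℕ), Num P ρ → Frb P ρ →
  Rc P (fun v => tq p ^ ρ (v 0) = v 1)

/-- [SEQ] all sequences are definable. For `x n` in `O` take `X` with the coefficient of
`t ^ (p ^ n * (p * i + 1))` equal to the coefficient of `t ^ i` in `x n`: then `y = x n` iff `y ∈ O` and
`lam (y * (t ^ i)⁻¹) = lam (X * (((t ^ i) ^ p * t) ^ (p ^ n))⁻¹)` for all numbers `i`. Each sequence in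
`K` is a quotient of two sequences in `O`. -/
def S_SEQ : Prop := ∀ (p : ℕ) [Fact p.Prime] (P : Set (LaurentSeries (ZMod p)))
  (ρ : LaurentSeries (ZMod p) → ℕ), Num P ρ → Frb P ρ →
  Rc P (fun v => tq p ^ ρ (v 0) = v 1) →
  ∀ x : ℕ → LaurentSeries (ZMod p), Rc P (fun v => x (ρ (v 0)) = v 1)

/-- `C` is closed in `K ^ n` -/
def ClosedN {p : ℕ} {n : ℕ} (C : Set (Fin n → LaurentSeries (ZMod p))) : Prop :=
  ∀ x, x ∉ C → ∃ N : ℤ, ∀ y ∈ C, ¬ ∀ i, Vle N (y i - x i)

/-- [CLS] closed sets: `C` (not empty) is the closure of a countable set `{x 0, x 1, ...}`, and each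
of the `n` coordinates of `x k` is a definable function of `k`. -/
def S_CLS : Prop := ∀ (p : ℕ) [Fact p.Prime] (P : Set (LaurentSeries (ZMod p)))
  (ρ : LaurentSeries (ZMod p) → ℕ), Num P ρ →
  (∀ x : ℕ → LaurentSeries (ZMod p), Rc P (fun v => x (ρ (v 0)) = v 1)) →
  ∀ (n : ℕ) (C : Set (Fin n → LaurentSeries (ZMod p))), ClosedN C →
    Rc P (fun v => (fun i : Fin n => v i) ∈ C)

end Pool.Agent.Helper14K9.PJ
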